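import Mathlib
import Pool.Agent.W746.LD.Final
import Pool.Agent.H749R2.Hyp1

/-!
# Estimates along the orbit of the critical value
-/

set_option autoImplicit false
open Set Filter Topology Metric Finset

namespace Pool.Agent.TH363.QI

open Pool.Agent.W746.LD

/-! ## Powers -/

theorem pow_rem (n : ℕ) (w : ℂ) : ‖(1 + w) ^ n - 1 - n * w‖ ≤ (1 + ‖w‖) ^ n - 1 - n * ‖w‖ := by
  induction n with
  | zero => simp
  | succ n ih =>
    have h1 : (1 + w) ^ (n + 1) - 1 - ((n + 1 : ℕ) : ℂ) * w =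
        (1 + w) * ((1 + w) ^ n - 1 - n * w) + n * w ^ 2 := by push_cast; ring
    rw [h1]
    have h2 : ‖1 + w‖ ≤ 1 + ‖w‖ := by
      refine (norm_add_le _ _).trans ?_
      rw [norm_one]
    calc ‖(1 + w) * ((1 + w) ^ n - 1 - n * w) + n * w ^ 2‖
        ≤ ‖(1 + w) * ((1 + w) ^ n - 1 - n * w)‖ + ‖(n : ℂ) * w ^ 2‖ := norm_add_le _ _
      _ = ‖1 + w‖ * ‖(1 + w) ^ n - 1 - n * w‖ + n * ‖w‖ ^ 2 := by
          rw [norm_mul, norm_mul, norm_pow, Complex.norm_natCast]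
      _ ≤ (1 + ‖w‖) * ((1 + ‖w‖) ^ n - 1 - n * ‖w‖) + n * ‖w‖ ^ 2 := by
          gcongr
      _ = _ := by push_cast; ring

theorem one_add_pow_le (n : ℕ) {x : ℝ} (hx : 0 ≤ x) : (1 + x) ^ n ≤ Real.exp (n * x) := by
  have h1 : 1 + x ≤ Real.exp x := by
    have := Real.add_one_le_exp x; linarith
  calc (1 + x) ^ n ≤ (Real.exp x) ^ n := by gcongr
    _ = Real.exp (n * x) := by rw [← Real.exp_nat_mul]

theorem pow_rem_le {n : ℕ} {w : ℂ} (h : n * ‖w‖ ≤ 1) :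
    ‖(1 + w) ^ n - 1 - n * w‖ ≤ (n * ‖w‖) ^ 2 := by
  have h0 : 0 ≤ n * ‖w‖ := by positivity
  have h1 := pow_rem n w
  have h2 := one_add_pow_le n (norm_nonneg w)
  have h3 := Real.abs_exp_sub_one_sub_id_le (x := n * ‖w‖) (by rwa [abs_of_nonneg h0])
  have h4 := le_abs_self (Real.exp (n * ‖w‖) - 1 - n * ‖w‖)
  linarith

theorem pow_one_le {n m : ℕ} (hm : m ≤ n) {w : ℂ} (h : n * ‖w‖ ≤ 1) :
    ‖(1 + w) ^ m - 1‖ ≤ n * ‖w‖ + (n * ‖w‖) ^ 2 := by
  have h0 : 0 ≤ n * ‖w‖ := by positivity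
  have hmn : (m : ℝ) * ‖w‖ ≤ n * ‖w‖ := by
    have : (m : ℝ) ≤ n := by exact_mod_cast hm
    gcongr
  have h1 := pow_rem_le (n := m) (w := w) (by linarith)
  have h2 : ‖(1 + w) ^ m - 1‖ ≤ ‖(1 + w) ^ m - 1 - m * w‖ + ‖(m : ℂ) * w‖ := by
    have := norm_add_le ((1 + w) ^ m - 1 - m * w) ((m : ℂ) * w)
    rwa [sub_add_cancel] at this
  rw [norm_mul, Complex.norm_natCast] at h2
  have h3 : ((m : ℝ) * ‖w‖) ^ 2 ≤ (n * ‖w‖) ^ 2 := by gcongr
  linarith

theorem pow_lower {n : ℕ} {w : ℂ} (h : n * ‖w‖ ≤ 1) :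
    n * ‖w‖ * (1 - n * ‖w‖) ≤ ‖(1 + w) ^ n - 1‖ := by
  have h1 := pow_rem_le h
  have h2 : ‖(n : ℂ) * w‖ ≤ ‖(1 + w) ^ n - 1‖ + ‖(1 + w) ^ n - 1 - n * w‖ := by
    have := norm_sub_le ((1 + w) ^ n - 1) ((1 + w) ^ n - 1 - n * w)
    rwa [sub_sub_cancel] at this
  rw [norm_mul, Complex.norm_natCast] at h2
  nlinarith

theorem pow_upper {n : ℕ} {w : ℂ} (h : n * ‖w‖ ≤ 1) :
    ‖(1 + w) ^ n - 1‖ ≤ n * ‖w‖ * (1 + n * ‖w‖) := by
  have h1 := pow_one_le (le_refl n) h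
  nlinarith

/-! ## The growth of a small displacement -/

theorem growth {ρ a : ℕ → ℝ} {j : ℕ} (hρ : ∀ i ≤ j, 0 < ρ i) (ha : ∀ i, 0 ≤ a i)
    (hstep : ∀ i < j, a i ≤ 1 → ρ i * a (i + 1) ≤ ρ (i + 1) * (a i * (1 + a i)) ∧
      ρ (i + 1) * (a i * (1 - a i)) ≤ ρ i * a (i + 1))
    {g : ℝ} (hg : 0 ≤ g) (h0 : a 0 = g * ρ 0) (hs : g * ∑ m ∈ range j, ρ m ≤ 1 / 8) :
    ∀ i ≤ j, g * ρ i * (1 - 2 * (g * ∑ m ∈ range i, ρ m)) ≤ a i ∧
      a i ≤ g * ρ i * (1 + 4 * (g * ∑ m ∈ range i, ρ m)) := by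
  intro i
  induction i with
  | zero =>
    intro _
    simp [h0]
  | succ i ih =>
    intro hi
    obtain ⟨h1, h2⟩ := ih (by omega)
    have hρi := hρ i (by omega)
    have hρi1 := hρ (i + 1) hi
    have hsum : ∑ m ∈ range (i + 1), ρ m = ∑ m ∈ range i, ρ m + ρ i := sum_range_succ _ _
    have hle : ∑ m ∈ range (i + 1), ρ m ≤ ∑ m ∈ range j, ρ m :=
      sum_le_sum_of_subset_of_nonneg (range_subset_range.mpr hi) (fun m hm _ => by
        rw [Finset.mem_range] at hm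
        exact (hρ m hm.le).le)
    have hS0 : 0 ≤ ∑ m ∈ range i, ρ m := sum_nonneg fun m hm => by
      rw [Finset.mem_range] at hm
      exact (hρ m (by omega)).le
    set s := g * ∑ m ∈ range i, ρ m with hsd
    have hs0 : 0 ≤ s := by positivity
    have hgr : 0 ≤ g * ρ i := by positivity
    have htot : s + g * ρ i ≤ 1 / 8 := by
      have : g * ∑ m ∈ range (i + 1), ρ m ≤ g * ∑ m ∈ range j, ρ m := by gcongr
      rw [hsum, mul_add, ← hsd] at this
      linarith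
    have hnew : g * ∑ m ∈ range (i + 1), ρ m = s + g * ρ i := by rw [hsum, mul_add]
    rw [hnew]
    have ha1 : a i ≤ 3 / 2 * (g * ρ i) := by
      refine h2.trans ?_
      nlinarith
    have hai : a i ≤ 1 := by linarith
    obtain ⟨h3, h4⟩ := hstep i (by omega) hai
    have ha0 := ha i
    constructor
    · -- lower bound
      have h5 : g * ρ i * (1 - 2 * s) * (1 - 3 / 2 * (g * ρ i)) ≤ a i * (1 - a i) := by
        have h6 : 0 ≤ 1 - 3 / 2 * (g * ρ i) := by linarith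
        have h7 : 1 - 3 / 2 * (g * ρ i) ≤ 1 - a i := by linarith
        calc g * ρ i * (1 - 2 * s) * (1 - 3 / 2 * (g * ρ i)) ≤ a i * (1 - 3 / 2 * (g * ρ i)) := by
              gcongr
          _ ≤ a i * (1 - a i) := by gcongr
      have h6 : ρ i * (g * ρ (i + 1) * (1 - 2 * (s + g * ρ i))) ≤ ρ i * a (i + 1) := by
        refine le_trans ?_ h4
        calc ρ i * (g * ρ (i + 1) * (1 - 2 * (s + g * ρ i)))
            = ρ (i + 1) * (g * ρ i * (1 - 2 * (s + g * ρ i))) := by ring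
          _ ≤ ρ (i + 1) * (g * ρ i * (1 - 2 * s) * (1 - 3 / 2 * (g * ρ i))) := by
              have h8 : 1 - 2 * (s + g * ρ i) ≤ (1 - 2 * s) * (1 - 3 / 2 * (g * ρ i)) := by
                nlinarith [mul_nonneg hs0 hgr]
              rw [mul_assoc (g * ρ i)]
              gcongr
          _ ≤ ρ (i + 1) * (a i * (1 - a i)) := by gcongr
      exact le_of_mul_le_mul_left h6 hρi
    · have h5 : a i * (1 + a i) ≤ g * ρ i * (1 + 4 * s) * (1 + 3 / 2 * (g * ρ i)) := by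
        gcongr
      have h6 : ρ i * a (i + 1) ≤ ρ i * (g * ρ (i + 1) * (1 + 4 * (s + g * ρ i))) := by
        refine h3.trans ?_
        calc ρ (i + 1) * (a i * (1 + a i))
            ≤ ρ (i + 1) * (g * ρ i * (1 + 4 * s) * (1 + 3 / 2 * (g * ρ i))) := by gcongr
          _ ≤ ρ (i + 1) * (g * ρ i * (1 + 4 * (s + g * ρ i))) := by
              have h8 : (1 + 4 * s) * (1 + 3 / 2 * (g * ρ i)) ≤ 1 + 4 * (s + g * ρ i) := by
                nlinarith [mul_nonneg hs0 hgr]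
              rw [mul_assoc (g * ρ i)]
              gcongr
          _ = _ := by ring
      exact le_of_mul_le_mul_left h6 hρi

/-! ## The displacement of two orbits -/

/-- The growth rate. -/
noncomputable def rho (n : ℕ) (c : ℂ) (i : ℕ) : ℝ := n * ‖P n c c i‖ / ‖orb n c c i‖

/-- The relative displacement of the orbit of `x` from the orbit of the critical value. -/
noncomputable def dsp (n : ℕ) (c x : ℂ) (i : ℕ) : ℂ := orb n c x i / orb n c c i - 1

theorem orb_eq {n : ℕ} {c x : ℂ} {i : ℕ} (h : orb n c c i ≠ 0) :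
    orb n c x i = orb n c c i * (1 + dsp n c x i) := by
  unfold dsp
  field_simp
  ring

theorem rho_pos {n : ℕ} (hn : 2 ≤ n) {c : ℂ} {i : ℕ} (h : ∀ m ≤ i, orb n c c m ≠ 0) :
    0 < rho n c i := by
  unfold rho
  have h1 : 0 < ‖orb n c c i‖ := norm_pos_iff.mpr (h i le_rfl)
  have h2 : 0 < ‖P n c c i‖ := norm_pos_iff.mpr (P_ne_zero hn fun m hm => h m hm.le)
  have h3 : (0 : ℝ) < n := by
    have : 0 < n := by omega
    exact_mod_cast this
  positivity

theorem rho_succ {n : ℕ} (hn : 2 ≤ n) {c : ℂ} {i : ℕ} (h : orb n c c i ≠ 0)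
    (h' : orb n c c (i + 1) ≠ 0) :
    rho n c (i + 1) * ‖orb n c c (i + 1)‖ = rho n c i * (n * ‖orb n c c i‖ ^ n) := by
  have h1 : ‖orb n c c i‖ ≠ 0 := norm_ne_zero_iff.mpr h
  have h2 : ‖orb n c c (i + 1)‖ ≠ 0 := norm_ne_zero_iff.mpr h'
  unfold rho
  rw [div_mul_cancel₀ _ h2, norm_P_succ]
  have h3 : ‖orb n c c i‖ ^ n = ‖orb n c c i‖ ^ (n - 1) * ‖orb n c c i‖ := by
    rw [← pow_succ, Nat.sub_add_cancel (by omega)]
  rw [h3]
  field_simp

theorem dsp_succ {n : ℕ} {c x : ℂ} {i : ℕ} (h : orb n c c i ≠ 0) (h' : orb n c c (i + 1) ≠ 0) :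
    dsp n c x (i + 1) * orb n c c (i + 1) = orb n c c i ^ n * ((1 + dsp n c x i) ^ n - 1) := by
  have h1 : dsp n c x (i + 1) * orb n c c (i + 1) = orb n c x (i + 1) - orb n c c (i + 1) := by
    unfold dsp
    field_simp
  rw [h1, orb_succ, orb_succ, orb_eq (x := x) h, mul_pow]
  ring

theorem dsp_step {n : ℕ} (hn : 2 ≤ n) {c x : ℂ} {i : ℕ} (h : orb n c c i ≠ 0)
    (h' : orb n c c (i + 1) ≠ 0) :
    rho n c i * (n * ‖dsp n c x (i + 1)‖) = rho n c (i + 1) * ‖(1 + dsp n c x i) ^ n - 1‖ := by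
  have h1 := rho_succ hn h h'
  have h2 := congrArg norm (dsp_succ (x := x) h h')
  rw [norm_mul, norm_mul, norm_pow] at h2
  have h3 : 0 < ‖orb n c c (i + 1)‖ := norm_pos_iff.mpr h'
  have h4 : rho n c i * (n * ‖dsp n c x (i + 1)‖) * ‖orb n c c (i + 1)‖ =
      rho n c (i + 1) * ‖(1 + dsp n c x i) ^ n - 1‖ * ‖orb n c c (i + 1)‖ := by
    calc rho n c i * (n * ‖dsp n c x (i + 1)‖) * ‖orb n c c (i + 1)‖
        = rho n c i * n * (‖dsp n c x (i + 1)‖ * ‖orb n c c (i + 1)‖) := by ring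
      _ = (rho n c i * (n * ‖orb n c c i‖ ^ n)) * ‖(1 + dsp n c x i) ^ n - 1‖ := by rw [h2]; ring
      _ = _ := by rw [← h1]; ring
  exact mul_right_cancel₀ h3.ne' h4

/-- The growth of the displacement. -/
theorem dsp_growth {n : ℕ} (hn : 2 ≤ n) {c : ℂ} {j : ℕ} (h : ∀ m ≤ j, orb n c c m ≠ 0) (x : ℂ)
    (hs : ‖x - c‖ * ∑ m ∈ range j, rho n c m ≤ 1 / 8) :
    ∀ i ≤ j, ‖x - c‖ * rho n c i * (3 / 4) ≤ n * ‖dsp n c x i‖ ∧
      n * ‖dsp n c x i‖ ≤ ‖x - c‖ * rho n c i * (3 / 2) := by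
  have hn0 : (0 : ℝ) < n := by
    have : 0 < n := by omega
    exact_mod_cast this
  have hρ : ∀ i ≤ j, 0 < rho n c i := fun i hi => rho_pos hn fun m hm => h m (hm.trans hi)
  have hc : orb n c c 0 ≠ 0 := h 0 (Nat.zero_le _)
  rw [orb_zero] at hc
  have key := growth (ρ := rho n c) (a := fun i => n * ‖dsp n c x i‖) (j := j) hρ
    (fun i => by positivity) (by
      intro i hi ha
      have h1 := h i hi.le
      have h2 := h (i + 1) hi
      have h3 := dsp_step hn (x := x) h1 h2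
      have h4 := hρ (i + 1) hi
      rw [h3]
      constructor
      · gcongr
        exact pow_upper ha
      · gcongr
        exact pow_lower ha) (g := ‖x - c‖) (norm_nonneg _) (by
      have hcn : ‖c‖ ≠ 0 := norm_ne_zero_iff.mpr hc
      have : dsp n c x 0 = (x - c) / c := by
        unfold dsp
        rw [orb_zero, orb_zero]
        field_simp
      change (n : ℝ) * ‖dsp n c x 0‖ = ‖x - c‖ * rho n c 0
      rw [this, norm_div]
      unfold rho
      rw [orb_zero, P_zero, norm_one]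
      field_simp) hs
  intro i hi
  obtain ⟨h1, h2⟩ := key i hi
  have h3 : ‖x - c‖ * ∑ m ∈ range i, rho n c m ≤ 1 / 8 := by
    refine le_trans ?_ hs
    gcongr
    · intro m hm _
      rw [Finset.mem_range] at hm
      exact (hρ m hm.le).le
    
  have h4 : 0 ≤ ‖x - c‖ * rho n c i := mul_nonneg (norm_nonneg _) (hρ i hi).le
  constructor
  · refine le_trans ?_ h1
    gcongr
    linarith
  · refine h2.trans ?_
    gcongr
    linarith

end Pool.Agent.TH363.QI
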