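import Mathlib
import Pool.Agent.TH363.QI.Est

/-!
# The derivative with respect to the parameter
-/

set_option autoImplicit false
open Set Filter Topology Metric Finset

namespace Pool.Agent.TH363.QI

open Pool.Agent.W746.LD

/-- The derivative of `t ↦ f_t^j(t)`. -/
noncomputable def D (n : ℕ) (c : ℂ) : ℕ → ℂ
  | 0 => 1
  | (j + 1) => n * (orb n c c j) ^ (n - 1) * D n c j + 1

theorem D_zero (n : ℕ) (c : ℂ) : D n c 0 = 1 := rfl

theorem D_succ (n : ℕ) (c : ℂ) (j : ℕ) :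
    D n c (j + 1) = n * (orb n c c j) ^ (n - 1) * D n c j + 1 := rfl

theorem hasDerivAt_D (n : ℕ) (c : ℂ) (j : ℕ) : HasDerivAt (fun t => orb n t t j) (D n c j) c := by
  induction j with
  | zero =>
    simp only [orb_zero]
    exact hasDerivAt_id c
  | succ j ih =>
    have h3 : (fun t => orb n t t (j + 1)) = fun t => (orb n t t j) ^ n + t := by
      funext t; exact orb_succ t j
    rw [h3, D_succ]
    exact (ih.fun_pow n).add (hasDerivAt_id c)

/-- The divided difference of the parameter derivatives. -/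
noncomputable def U (n : ℕ) (c : ℂ) (N i : ℕ) : ℂ :=
  (D n c (N + i) - D n c i) / (orb n c c (N + i) - orb n c c i)

/-- The ratio of the orbit at distance `N`. -/
noncomputable def W (n : ℕ) (c : ℂ) (N i : ℕ) : ℂ := dsp n c (orb n c c N) i

theorem W_eq (n : ℕ) (c : ℂ) (N i : ℕ) : W n c N i = orb n c c (N + i) / orb n c c i - 1 := by
  unfold W dsp
  rw [orb_add]

theorem orb_shift {n : ℕ} {c : ℂ} {N i : ℕ} (h : orb n c c i ≠ 0) :
    orb n c c (N + i) = orb n c c i * (1 + W n c N i) := by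
  rw [orb_add]
  exact orb_eq h

theorem D_shift {n : ℕ} {c : ℂ} {N i : ℕ} (h : orb n c c i ≠ 0)
    (h' : orb n c c (N + i) ≠ orb n c c i) :
    D n c (N + i) = D n c i + U n c N i * (orb n c c i * W n c N i) := by
  have h1 : orb n c c i * W n c N i = orb n c c (N + i) - orb n c c i := by
    rw [orb_shift h]; ring
  rw [h1, U, div_mul_cancel₀ _ (sub_ne_zero.mpr h')]
  ring

theorem hasDerivAt_W {n : ℕ} {c : ℂ} {N i : ℕ} (h : orb n c c i ≠ 0)
    (h' : orb n c c (N + i) ≠ orb n c c i) :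
    HasDerivAt (fun t => orb n t t (N + i) / orb n t t i - 1)
      (W n c N i * (U n c N i - D n c i / orb n c c i)) c := by
  have h1 := ((hasDerivAt_D n c (N + i)).fun_div (hasDerivAt_D n c i) h).sub_const 1
  refine h1.congr_deriv ?_
  rw [D_shift h h', orb_shift h]
  field_simp
  ring

theorem U_zero {n : ℕ} (hn : 2 ≤ n) {c : ℂ} {k : ℕ} (h : orb n c c k ≠ 0) :
    U n c (k + 1) 0 = n * D n c k / orb n c c k := by
  unfold U
  rw [add_zero, D_succ, D_zero, orb_succ, orb_zero, add_sub_cancel_right, add_sub_cancel_right]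
  have h1 : orb n c c k ^ n = orb n c c k ^ (n - 1) * orb n c c k := by
    rw [← pow_succ, Nat.sub_add_cancel (by omega)]
  rw [h1]
  field_simp

/-- The algebra of one step. -/
theorem ustep_alg {n : ℕ} (hn : 2 ≤ n) {z w d u c : ℂ} (hz : z ≠ 0) (ha : n * ‖w‖ ≤ 1 / 4)
    (hw : w ≠ 0) :
    ‖(n * (z * (1 + w)) ^ (n - 1) * (d + u * (z * w)) + 1 - (n * z ^ (n - 1) * d + 1)) /
        ((z * (1 + w)) ^ n + c - (z ^ n + c)) - u‖ ≤
      3 * (n * ‖w‖) * ‖u‖ + 2 * (n * ‖d‖ / ‖z‖) := by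
  have hn0 : (0 : ℝ) < n := by
    have : 0 < n := by omega
    exact_mod_cast this
  have hw0 : 0 < ‖w‖ := norm_pos_iff.mpr hw
  have hz0 : 0 < ‖z‖ := norm_pos_iff.mpr hz
  set a : ℝ := n * ‖w‖ with had
  have ha0 : 0 < a := by positivity
  set p : ℂ := (1 + w) ^ (n - 1) with hp
  set Q : ℂ := (1 + w) ^ n - 1 with hQ
  have h1 : a * (1 - a) ≤ ‖Q‖ := pow_lower (by linarith)
  have h2 : ‖Q - n * w‖ ≤ a ^ 2 := pow_rem_le (by linarith)
  have h3 : ‖p - 1‖ ≤ a + a ^ 2 := pow_one_le (by omega) (by linarith)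
  have h4 : 3 / 4 * a ≤ ‖Q‖ := by nlinarith
  have hQ0 : 0 < ‖Q‖ := by nlinarith
  have hQ' : Q ≠ 0 := norm_pos_iff.mp hQ0
  have hzn : z ^ n = z ^ (n - 1) * z := by rw [← pow_succ, Nat.sub_add_cancel (by omega)]
  have hzn1 : z ^ (n - 1) ≠ 0 := pow_ne_zero _ hz
  have h5 : (n * (z * (1 + w)) ^ (n - 1) * (d + u * (z * w)) + 1 - (n * z ^ (n - 1) * d + 1)) /
        ((z * (1 + w)) ^ n + c - (z ^ n + c)) - u =
      u * ((n * w * p - Q) / Q) + (n * d / z) * ((p - 1) / Q) := by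
    have e1 : (n * (z * (1 + w)) ^ (n - 1) * (d + u * (z * w)) + 1 - (n * z ^ (n - 1) * d + 1)) =
        n * z ^ (n - 1) * (p * (d + u * (z * w)) - d) := by
      rw [mul_pow, ← hp]; ring
    have e2 : (z * (1 + w)) ^ n + c - (z ^ n + c) = z ^ (n - 1) * z * Q := by
      rw [mul_pow, hQ, ← hzn]; ring
    rw [e1, e2]
    field_simp
    ring
  rw [h5]
  have h6 : ‖n * w * p - Q‖ ≤ 2 * a ^ 2 + a ^ 3 := by
    have e : n * w * p - Q = n * w * (p - 1) - (Q - n * w) := by ring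
    rw [e]
    refine (norm_sub_le _ _).trans ?_
    rw [norm_mul, norm_mul, Complex.norm_natCast, ← had]
    have : a * ‖p - 1‖ ≤ a * (a + a ^ 2) := by gcongr
    nlinarith
  have h7 : ‖(n * w * p - Q) / Q‖ ≤ 3 * a := by
    rw [norm_div, div_le_iff₀ hQ0]
    have : 3 * a * (3 / 4 * a) ≤ 3 * a * ‖Q‖ := by gcongr
    nlinarith
  have h8 : ‖(p - 1) / Q‖ ≤ 2 := by
    rw [norm_div, div_le_iff₀ hQ0]
    nlinarith
  calc ‖u * ((n * w * p - Q) / Q) + (n * d / z) * ((p - 1) / Q)‖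
      ≤ ‖u * ((n * w * p - Q) / Q)‖ + ‖(n * d / z) * ((p - 1) / Q)‖ := norm_add_le _ _
    _ = ‖u‖ * ‖(n * w * p - Q) / Q‖ + (n * ‖d‖ / ‖z‖) * ‖(p - 1) / Q‖ := by
        rw [norm_mul, norm_mul, norm_div ((n : ℂ) * d), norm_mul, Complex.norm_natCast]
    _ ≤ ‖u‖ * (3 * a) + (n * ‖d‖ / ‖z‖) * 2 := by gcongr
    _ = _ := by ring

theorem U_step {n : ℕ} (hn : 2 ≤ n) {c : ℂ} {N i : ℕ} (h : orb n c c i ≠ 0)
    (h' : orb n c c (N + i) ≠ orb n c c i) (ha : n * ‖W n c N i‖ ≤ 1 / 4) :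
    ‖U n c N (i + 1) - U n c N i‖ ≤
      3 * (n * ‖W n c N i‖) * ‖U n c N i‖ + 2 * (n * ‖D n c i‖ / ‖orb n c c i‖) := by
  have hw : W n c N i ≠ 0 := by
    intro h0
    apply h'
    rw [orb_shift h, h0, add_zero, mul_one]
  have h1 := ustep_alg hn (z := orb n c c i) (w := W n c N i) (d := D n c i) (u := U n c N i)
    (c := c) h ha hw
  have h2 : U n c N (i + 1) =
      (n * (orb n c c i * (1 + W n c N i)) ^ (n - 1) *
        (D n c i + U n c N i * (orb n c c i * W n c N i)) + 1 -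
          (n * orb n c c i ^ (n - 1) * D n c i + 1)) /
        ((orb n c c i * (1 + W n c N i)) ^ n + c - (orb n c c i ^ n + c)) := by
    rw [← orb_shift h, ← D_shift h h']
    unfold U
    rw [← add_assoc, D_succ, D_succ, orb_succ, orb_succ]
  rw [h2]
  exact h1

/-- The abstract sum. -/
theorem ubound {x a u : ℕ → ℝ} {q : ℕ} {u0 : ℝ} (hu0 : 0 ≤ u0) (hx0 : x 0 = 0)
    (ha : ∀ i, 0 ≤ a i) (hu : ∀ i, 0 ≤ u i)
    (hstep : ∀ i < q, x (i + 1) ≤ x i + 3 * a i * (u0 + x i) + 2 * u i)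
    (hsa : 3 * ∑ i ∈ range q, a i ≤ 1 / 64) (hsu : 2 * ∑ i ∈ range q, u i ≤ u0 / 16) :
    ∀ i ≤ q, x i ≤ u0 / 8 := by
  have key : ∀ i ≤ q, x i ≤ 5 / 4 * (3 * ∑ m ∈ range i, a m) * u0 + 2 * ∑ m ∈ range i, u m ∧
      3 * ∑ m ∈ range i, a m ≤ 1 / 64 ∧ 2 * ∑ m ∈ range i, u m ≤ u0 / 16 := by
    intro i hi
    have e1 : ∑ m ∈ range i, a m ≤ ∑ m ∈ range q, a m :=
      sum_le_sum_of_subset_of_nonneg (range_subset_range.mpr hi) (fun m _ _ => ha m)
    have e2 : ∑ m ∈ range i, u m ≤ ∑ m ∈ range q, u m :=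
      sum_le_sum_of_subset_of_nonneg (range_subset_range.mpr hi) (fun m _ _ => hu m)
    refine ⟨?_, by linarith, by linarith⟩
    clear e1 e2
    induction i with
    | zero => simp [hx0]
    | succ i ih =>
      have h1 := ih (by omega)
      have h2 := hstep i (by omega)
      have e1 : ∑ m ∈ range i, a m ≤ ∑ m ∈ range q, a m :=
        sum_le_sum_of_subset_of_nonneg (range_subset_range.mpr (by omega)) (fun m _ _ => ha m)
      have e2 : ∑ m ∈ range i, u m ≤ ∑ m ∈ range q, u m :=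
        sum_le_sum_of_subset_of_nonneg (range_subset_range.mpr (by omega)) (fun m _ _ => hu m)
      rw [sum_range_succ, sum_range_succ]
      have h3 : x i ≤ u0 / 4 := by
        have : 5 / 4 * (3 * ∑ m ∈ range i, a m) * u0 ≤ 5 / 4 * (1 / 64) * u0 := by
          gcongr
          linarith
        linarith
      have h4 : 3 * a i * (u0 + x i) ≤ 3 * a i * (5 / 4 * u0) := by
        have := ha i
        gcongr
        linarith
      linarith
  intro i hi
  obtain ⟨h1, h2, h3⟩ := key i hi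
  have : 5 / 4 * (3 * ∑ m ∈ range i, a m) * u0 ≤ 5 / 4 * (1 / 64) * u0 := by gcongr
  linarith

/-- The divided differences stay close to the first one. -/
theorem U_close {n : ℕ} (hn : 2 ≤ n) {c : ℂ} {N q : ℕ} (h : ∀ i ≤ q, orb n c c i ≠ 0)
    (h' : ∀ i ≤ q, orb n c c (N + i) ≠ orb n c c i)
    (hsa : 3 * ∑ i ∈ range q, n * ‖W n c N i‖ ≤ 1 / 64)
    (hsu : 2 * ∑ i ∈ range q, n * ‖D n c i‖ / ‖orb n c c i‖ ≤ ‖U n c N 0‖ / 16) :
    ∀ i ≤ q, ‖U n c N i - U n c N 0‖ ≤ ‖U n c N 0‖ / 8 := by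
  refine ubound (x := fun i => ‖U n c N i - U n c N 0‖) (a := fun i => n * ‖W n c N i‖)
    (u := fun i => n * ‖D n c i‖ / ‖orb n c c i‖) (norm_nonneg _) (by simp)
    (fun i => by positivity) (fun i => by positivity) ?_ hsa hsu
  intro i hi
  have ha : n * ‖W n c N i‖ ≤ 1 / 4 := by
    have h1 : n * ‖W n c N i‖ ≤ ∑ i ∈ range q, n * ‖W n c N i‖ :=
      single_le_sum (f := fun i => n * ‖W n c N i‖) (fun i _ => by positivity)
        (Finset.mem_range.mpr hi)
    linarith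
  have h1 := U_step hn (h i hi.le) (h' i hi.le) ha
  have h2 : ‖U n c N i‖ ≤ ‖U n c N 0‖ + ‖U n c N i - U n c N 0‖ := by
    have := norm_add_le (U n c N 0) (U n c N i - U n c N 0)
    rwa [add_sub_cancel] at this
  have h3 : ‖U n c N (i + 1) - U n c N 0‖ ≤
      ‖U n c N (i + 1) - U n c N i‖ + ‖U n c N i - U n c N 0‖ := by
    have := norm_add_le (U n c N (i + 1) - U n c N i) (U n c N i - U n c N 0)
    rwa [sub_add_sub_cancel] at this
  have h4 : 3 * (n * ‖W n c N i‖) * ‖U n c N i‖ ≤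
      3 * (n * ‖W n c N i‖) * (‖U n c N 0‖ + ‖U n c N i - U n c N 0‖) := by gcongr
  linarith

end Pool.Agent.TH363.QI
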