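import Mathlib
import Pool.Prelude.Def_F_c31e40fa
import Pool.Agent.TH363.QI.Par
import Pool.Agent.H749R2.Hyp1

/-!
# A criterion for attracting cycles, and a choice of a root of unity
-/

set_option autoImplicit false
open Set Filter Topology Metric Finset

namespace Pool.Agent.TH363.QI

open Pool.Agent.W746.LD

theorem one_add_norm_prod_le {ι : Type*} (s : Finset ι) (w : ι → ℂ) (m : ℕ) :
    ‖∏ i ∈ s, (1 + w i) ^ m‖ ≤ Real.exp (∑ i ∈ s, m * ‖w i‖) := by
  rw [norm_prod, Real.exp_sum]
  apply prod_le_prod (fun i _ => norm_nonneg _)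
  intro i _
  rw [norm_pow]
  calc ‖1 + w i‖ ^ m ≤ (1 + ‖w i‖) ^ m := by
        gcongr
        refine (norm_add_le _ _).trans ?_
        rw [norm_one]
    _ ≤ Real.exp (m * ‖w i‖) := one_add_pow_le m (norm_nonneg _)

/-- A criterion for an attracting cycle of period `k + 1`. -/
theorem attracting {n : ℕ} (hn : 2 ≤ n) {c : ℂ} {k : ℕ} (h : ∀ i ≤ k, orb n c c i ≠ 0)
    (hs : ‖orb n c c k‖ ^ n * ∑ i ∈ range (k + 1), rho n c i < 1 / 20) :
    ∃ m z, N62a1eb23.IsAttractingCycle (fun z => z ^ n + c) m z := by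
  have hn0 : (0 : ℝ) < n := by
    have : 0 < n := by omega
    exact_mod_cast this
  have hρ : ∀ i ≤ k, 0 < rho n c i := fun i hi => rho_pos hn fun m hm => h m (hm.trans hi)
  set g : ℝ := ‖orb n c c k‖ ^ n with hg
  have hzk : 0 < ‖orb n c c k‖ := norm_pos_iff.mpr (h k le_rfl)
  have hg0 : 0 < g := by positivity
  have hsum : ∑ i ∈ range (k + 1), rho n c i = ∑ i ∈ range k, rho n c i + rho n c k :=
    sum_range_succ _ _
  have hsk : 0 ≤ ∑ i ∈ range k, rho n c i := sum_nonneg fun i hi => by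
    rw [Finset.mem_range] at hi
    exact (hρ i hi.le).le
  have hρk := hρ k le_rfl
  have hgρ : g * rho n c k < 1 / 20 := by
    have : g * rho n c k ≤ g * ∑ i ∈ range (k + 1), rho n c i := by
      rw [hsum]
      gcongr
      linarith
    linarith
  have hPk : ‖P n c c (k + 1)‖ = g * rho n c k := by
    rw [norm_P_succ, hg]
    unfold rho
    have h3 : ‖orb n c c k‖ ^ n = ‖orb n c c k‖ ^ (n - 1) * ‖orb n c c k‖ := by
      rw [← pow_succ, Nat.sub_add_cancel (by omega)]
    rw [h3]
    field_simp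
  -- the displacement
  have hw : ∀ x ∈ closedBall c (2 * g), ∀ i ≤ k, n * ‖dsp n c x i‖ ≤ 3 * (g * rho n c i) := by
    intro x hx i hi
    rw [mem_closedBall, dist_eq_norm] at hx
    have h1 : ‖x - c‖ * ∑ m ∈ range k, rho n c m ≤ 1 / 8 := by
      calc ‖x - c‖ * ∑ m ∈ range k, rho n c m ≤ 2 * g * ∑ m ∈ range k, rho n c m := by gcongr
        _ ≤ 2 * (g * ∑ i ∈ range (k + 1), rho n c i) := by
            rw [hsum, mul_assoc]
            gcongr
            linarith
        _ ≤ 1 / 8 := by linarith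
    have h2 := (dsp_growth hn h x h1 i hi).2
    have h3 : ‖x - c‖ * rho n c i * (3 / 2) ≤ 2 * g * rho n c i * (3 / 2) := by
      have := (hρ i hi).le
      gcongr
    linarith
  -- the derivative
  have hder : ∀ x ∈ closedBall c (2 * g), ‖P n c x (k + 1)‖ ≤ 1 / 2 := by
    intro x hx
    have h1 : P n c x (k + 1) = P n c c (k + 1) *
        ∏ i ∈ range (k + 1), (1 + dsp n c x i) ^ (n - 1) := by
      unfold P
      rw [← prod_mul_distrib]
      apply prod_congr rfl
      intro i hi
      rw [Finset.mem_range] at hi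
      rw [orb_eq (x := x) (h i (by omega)), mul_pow]
      ring
    rw [h1, norm_mul, hPk]
    have h2 := one_add_norm_prod_le (range (k + 1)) (fun i => dsp n c x i) (n - 1)
    have h3 : ∑ i ∈ range (k + 1), ((n - 1 : ℕ) : ℝ) * ‖dsp n c x i‖ ≤ 3 / 20 := by
      calc ∑ i ∈ range (k + 1), ((n - 1 : ℕ) : ℝ) * ‖dsp n c x i‖
          ≤ ∑ i ∈ range (k + 1), 3 * (g * rho n c i) := by
            apply sum_le_sum
            intro i hi
            rw [Finset.mem_range] at hi
            refine le_trans ?_ (hw x hx i (by omega))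
            gcongr
            omega
        _ = 3 * (g * ∑ i ∈ range (k + 1), rho n c i) := by
            rw [← mul_sum, ← mul_sum]
        _ ≤ 3 / 20 := by linarith
    have h4 : Real.exp (3 / 20) ≤ 2 := by
      have := Real.abs_exp_sub_one_le (x := 3 / 20) (by norm_num [abs_of_pos])
      rw [abs_of_pos (by norm_num : (0 : ℝ) < 3 / 20)] at this
      have h5 := le_abs_self (Real.exp (3 / 20) - 1)
      linarith
    have h5 : ‖∏ i ∈ range (k + 1), (1 + dsp n c x i) ^ (n - 1)‖ ≤ 2 :=
      h2.trans ((Real.exp_le_exp.mpr h3).trans h4)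
    calc g * rho n c k * ‖∏ i ∈ range (k + 1), (1 + dsp n c x i) ^ (n - 1)‖
        ≤ 1 / 20 * 2 := by gcongr
      _ ≤ 1 / 2 := by norm_num
  have hd : ∀ x, HasDerivAt (fun x => orb n c x (k + 1)) (P n c x (k + 1)) x := fun x =>
    hasDerivAt_orb x (k + 1)
  have hmaps : MapsTo (fun x => orb n c x (k + 1)) (closedBall c (2 * g)) (closedBall c (2 * g)) := by
    intro x hx
    have h1 := (convex_closedBall c (2 * g)).norm_image_sub_le_of_norm_deriv_le
      (f := fun x => orb n c x (k + 1)) (C := 1 / 2) (fun z _ => (hd z).differentiableAt)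
      (fun z hz => by rw [(hd z).deriv]; exact hder z hz)
      (mem_closedBall_self (by positivity)) hx
    rw [mem_closedBall, dist_eq_norm] at hx ⊢
    have h2 : ‖orb n c c (k + 1) - c‖ = g := norm_orb_succ_sub c k
    have h3 : ‖orb n c x (k + 1) - c‖ ≤
        ‖orb n c x (k + 1) - orb n c c (k + 1)‖ + ‖orb n c c (k + 1) - c‖ := by
      have := norm_add_le (orb n c x (k + 1) - orb n c c (k + 1)) (orb n c c (k + 1) - c)
      rwa [sub_add_sub_cancel] at this
    linarith
  obtain ⟨z, -, hz1, hz2⟩ := Pool.Agent.H749R2.Hyp.fixed_of_contr (g := fun x => orb n c x (k + 1))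
    (c := c) (ρ := 2 * g) (q := 1 / 2) (by positivity) (by norm_num) (by norm_num)
    (fun z => (hd z).differentiableAt) hmaps (fun z hz => by rw [(hd z).deriv]; exact hder z hz)
  refine ⟨k + 1, z, by omega, ?_, ?_, ?_⟩
  · exact hz1
  · exact (hd z).differentiableAt
  · exact hz2

/-- A root of unity at the right distance from `1`. -/
theorem exists_root {n : ℕ} (hn : 2 ≤ n) {a X : ℝ} (hX : 1 ≤ X) (ha : 1 / X ≤ n * a) (ha' : a ≤ X) :
    ∃ ω : ℂ, ω ^ n = 1 ∧ ω ≠ 1 ∧ 0 < ‖ω - 1‖ ∧ 1 / (7 * X) ≤ a / ‖ω - 1‖ ∧ a / ‖ω - 1‖ ≤ X := by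
  have hn0 : (0 : ℝ) < n := by
    have : 0 < n := by omega
    exact_mod_cast this
  have hX0 : 0 < X := by linarith
  have hna : 0 < n * a := lt_of_lt_of_le (by positivity) ha
  have ha0 : 0 < a := by
    rcases lt_or_ge 0 a with h | h
    · exact h
    · nlinarith
  have hpi := Real.pi_pos
  have hpi4 := Real.pi_lt_d2
  -- the distances
  have key : ∀ s : ℕ, 1 ≤ s → 2 * s ≤ n → ∃ ω : ℂ, ω ^ n = 1 ∧
      4 * s / n ≤ ‖ω - 1‖ ∧ ‖ω - 1‖ ≤ 6.3 * s / n := by
    intro s hs hsn
    have hs0 : (0 : ℝ) < s := by exact_mod_cast hs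
    have hsn' : 2 * (s : ℝ) ≤ n := by exact_mod_cast hsn
    set θ : ℝ := 2 * Real.pi * s / n with hθ
    have hθ0 : 0 ≤ θ := by positivity
    refine ⟨Complex.exp (Complex.I * θ), ?_, ?_⟩
    · rw [← Complex.exp_nat_mul]
      have : (n : ℂ) * (Complex.I * θ) = s * (2 * Real.pi * Complex.I) := by
        rw [hθ]
        push_cast
        have : (n : ℂ) ≠ 0 := by exact_mod_cast hn0.ne'
        field_simp
      rw [this]
      exact Complex.exp_nat_mul_two_pi_mul_I s
    · have h1 : ‖Complex.exp (Complex.I * θ) - 1‖ = 2 * Real.sin (θ / 2) := by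
        rw [Complex.norm_exp_I_mul_ofReal_sub_one, Real.norm_eq_abs, abs_of_nonneg]
        have : 0 ≤ Real.sin (θ / 2) := by
          apply Real.sin_nonneg_of_nonneg_of_le_pi (by positivity)
          rw [hθ]
          rw [div_div, div_le_iff₀ (by positivity)]
          nlinarith
        positivity
      rw [h1]
      constructor
      · have h2 : θ / 2 ≤ Real.pi / 2 := by
          rw [hθ]
          rw [div_div, div_le_iff₀ (by positivity)]
          nlinarith
        have h3 := Real.mul_le_sin (x := θ / 2) (by positivity) h2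
        have h4 : 2 * (2 / Real.pi * (θ / 2)) = 4 * s / n := by
          rw [hθ]
          field_simp
          ring
        linarith
      · have h2 : Real.sin (θ / 2) ≤ θ / 2 := Real.sin_le (by positivity)
        have h3 : θ ≤ 6.3 * s / n := by
          rw [hθ]
          gcongr
          linarith
        linarith
  have fin : ∀ s : ℕ, 1 ≤ s → 2 * s ≤ n → 6.3 * s ≤ 7 * X * (n * a) → n * a ≤ 4 * s * X →
      ∃ ω : ℂ, ω ^ n = 1 ∧ ω ≠ 1 ∧ 0 < ‖ω - 1‖ ∧ 1 / (7 * X) ≤ a / ‖ω - 1‖ ∧
        a / ‖ω - 1‖ ≤ X := by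
    intro s hs hsn h1 h2
    obtain ⟨ω, hω, h3, h4⟩ := key s hs hsn
    have hs0 : (0 : ℝ) < s := by exact_mod_cast hs
    have h5 : 0 < ‖ω - 1‖ := lt_of_lt_of_le (by positivity) h3
    refine ⟨ω, hω, ?_, h5, ?_, ?_⟩
    · rw [norm_pos_iff, sub_ne_zero] at h5
      exact h5
    · rw [div_le_div_iff₀ (by positivity) h5, one_mul]
      refine h4.trans ?_
      rw [div_le_iff₀ hn0]
      linarith
    · rw [div_le_iff₀ h5]
      have : X * (4 * s / n) ≤ X * ‖ω - 1‖ := by gcongr
      refine le_trans ?_ this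
      rw [← mul_div_assoc, le_div_iff₀ hn0]
      linarith
  have hXa : 1 ≤ X * (n * a) := by
    rw [div_le_iff₀ hX0] at ha
    linarith
  rcases le_or_gt (n * a) 4 with h1 | h1
  · refine fin 1 le_rfl (by omega) ?_ ?_
    · push_cast
      nlinarith
    · push_cast
      nlinarith
  · rcases le_or_gt (n * a) n with h2 | h2
    · set s : ℕ := ⌊n * a / 2⌋₊ with hs
      have h3 : (s : ℝ) ≤ n * a / 2 := Nat.floor_le (by positivity)
      have h4 : n * a / 2 < s + 1 := Nat.lt_floor_add_one _
      have h5 : (1 : ℝ) < s := by linarith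
      have h6 : 1 < s := by exact_mod_cast h5
      refine fin s (by omega) ?_ ?_ ?_
      · have : 2 * (s : ℝ) ≤ n := by linarith
        exact_mod_cast this
      · nlinarith
      · nlinarith
    · set s : ℕ := n / 2 with hs
      have hs1 : 1 ≤ s := by omega
      have h3 : 2 * s ≤ n := by omega
      have h4 : n ≤ 3 * s := by omega
      have h3' : 2 * (s : ℝ) ≤ n := by exact_mod_cast h3
      have h4' : (n : ℝ) ≤ 3 * s := by exact_mod_cast h4
      refine fin s hs1 h3 ?_ ?_
      · nlinarith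
      · calc n * a ≤ (3 * s) * X := by gcongr
          _ ≤ 4 * s * X := by
            have : (0 : ℝ) ≤ s * X := by positivity
            nlinarith

end Pool.Agent.TH363.QI
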