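import Mathlib
import Pool.Agent.W746.LD.Final
import Pool.Agent.Helper113.Gorin.Schottky

/-!
# Landau's inequality for functions omitting two values
-/

set_option autoImplicit false
open Set Filter Topology Metric

namespace Pool.Agent.TH363.QI

/-- The constant in Schottky's theorem. -/
noncomputable def E₀ : ℝ := Real.exp (Real.pi * Real.exp (Real.pi * (3 + 386)))

/-- The constant. -/
noncomputable def C₁ : ℝ := Real.log (E₀ + 1)

theorem C₁_nonneg : 0 ≤ C₁ := by
  unfold C₁ E₀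
  apply Real.log_nonneg
  have := Real.exp_pos (Real.pi * Real.exp (Real.pi * (3 + 386)))
  linarith

theorem landau_small {h : ℂ → ℂ} {a : ℂ} {r : ℝ} (hr : 0 < r)
    (hd : DifferentiableOn ℂ h (ball a r)) (h0 : ∀ t ∈ ball a r, h t ≠ 0)
    (h1 : ∀ t ∈ ball a r, h t ≠ 1) (hs : ‖h a‖ ≤ 1) :
    ‖deriv h a‖ * r ≤ 4 * ‖h a‖ * (C₁ + |Real.log ‖h a‖|) := by
  have hmap : ∀ w ∈ ball (0 : ℂ) 1, a + r * w ∈ ball a r := by
    intro w hw
    rw [mem_ball_zero_iff] at hw
    rw [mem_ball_iff_norm, add_sub_cancel_left, norm_mul, Complex.norm_real, Real.norm_eq_abs,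
      abs_of_pos hr]
    nlinarith
  have hfd : DifferentiableOn ℂ (fun w => 2 * h (a + r * w) - 1) (ball 0 1) := by
    intro w hw
    have h2 : DifferentiableAt ℂ h (a + r * w) :=
      (hd _ (hmap w hw)).differentiableAt (isOpen_ball.mem_nhds (hmap w hw))
    have h3 : DifferentiableAt ℂ (fun w : ℂ => a + r * w) w := by fun_prop
    exact (((h2.comp w h3).const_mul 2).sub_const 1).differentiableWithinAt
  have hE : ∀ t ∈ ball a (r / 2), ‖h t‖ < E₀ + 1 := by
    intro t ht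
    set w : ℂ := (t - a) / r with hw
    have hrC : (r : ℂ) ≠ 0 := by exact_mod_cast hr.ne'
    have hcw : a + r * w = t := by rw [hw]; field_simp; ring
    have hwn : w ∈ ball (0 : ℂ) (1 / 2) := by
      rw [mem_ball_zero_iff, hw, norm_div, Complex.norm_real, Real.norm_eq_abs, abs_of_pos hr,
        div_lt_iff₀ hr]
      rw [mem_ball_iff_norm] at ht
      linarith
    have h4 := H113G.schottky_all (fun w => 2 * h (a + r * w) - 1) 3 hfd
      (fun z hz h5 => h1 _ (hmap z hz) (by linear_combination h5 / 2))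
      (fun z hz h5 => h0 _ (hmap z hz) (by linear_combination h5 / 2))
      (by
        simp only [mul_zero, add_zero]
        refine (norm_sub_le _ _).trans ?_
        rw [norm_mul, norm_one]
        have : ‖(2 : ℂ)‖ = 2 := by simp
        rw [this]
        linarith) w hwn
    simp only [hcw] at h4
    have h5 : ‖2 * h t‖ ≤ ‖2 * h t - 1‖ + ‖(1 : ℂ)‖ := by
      have := norm_add_le (2 * h t - 1) 1
      rwa [sub_add_cancel] at this
    rw [norm_mul, norm_one] at h5
    have h6 : ‖(2 : ℂ)‖ = 2 := by simp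
    rw [h6] at h5
    have h7 : 0 < E₀ := Real.exp_pos _
    unfold E₀ at h7 ⊢
    linarith
  have hsub : ball a (r / 2) ⊆ ball a r := ball_subset_ball (by linarith)
  have ha : a ∈ ball a r := mem_ball_self hr
  have hpos : 0 < ‖h a‖ := norm_pos_iff.mpr (h0 a ha)
  have h2 := Pool.Agent.W746.LD.schwarz_log (half_pos hr) (hd.mono hsub)
    (fun t ht => h0 t (hsub ht)) hE
  have hE0 : 0 < E₀ := Real.exp_pos _
  rw [Real.log_div (by linarith) hpos.ne'] at h2
  have h3 : -Real.log ‖h a‖ ≤ |Real.log ‖h a‖| := neg_le_abs _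
  have h4 : 2 * ‖h a‖ * (Real.log (E₀ + 1) - Real.log ‖h a‖) ≤
      2 * ‖h a‖ * (C₁ + |Real.log ‖h a‖|) := by
    unfold C₁
    gcongr
    linarith
  nlinarith

/-- Landau's inequality: `h` omits `0` and `1` on a ball. -/
theorem landau {h : ℂ → ℂ} {a h' : ℂ} {r : ℝ} (hr : 0 < r)
    (hd : DifferentiableOn ℂ h (ball a r)) (h0 : ∀ t ∈ ball a r, h t ≠ 0)
    (h1 : ∀ t ∈ ball a r, h t ≠ 1) (hh : HasDerivAt h h' a) :
    ‖h' / h a‖ * r ≤ 4 * (C₁ + |Real.log ‖h a‖|) := by
  have ha : a ∈ ball a r := mem_ball_self hr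
  have hpos : 0 < ‖h a‖ := norm_pos_iff.mpr (h0 a ha)
  rcases le_or_gt ‖h a‖ 1 with hs | hs
  · have h2 := landau_small hr hd h0 h1 hs
    rw [hh.deriv] at h2
    rw [norm_div, div_mul_eq_mul_div, div_le_iff₀ hpos]
    linarith
  · have hd' : DifferentiableOn ℂ (fun t => (h t)⁻¹) (ball a r) := hd.fun_inv h0
    have h2 := landau_small hr hd' (fun t ht => inv_ne_zero (h0 t ht))
      (fun t ht h3 => h1 t ht (by rwa [inv_eq_one] at h3)) (by
        rw [norm_inv]
        exact inv_le_one_of_one_le₀ hs.le)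
    have h3 : HasDerivAt (fun t => (h t)⁻¹) (-h' / (h a) ^ 2) a := hh.fun_inv (h0 a ha)
    rw [h3.deriv, norm_inv, Real.log_inv, abs_neg, norm_div, norm_neg, norm_pow] at h2
    rw [norm_div]
    have h4 : ‖h'‖ / ‖h a‖ * r = ‖h a‖ * (‖h'‖ / ‖h a‖ ^ 2 * r) := by field_simp
    have h5 : ‖h a‖ * (4 * ‖h a‖⁻¹ * (C₁ + |Real.log ‖h a‖|)) =
        4 * (C₁ + |Real.log ‖h a‖|) := by field_simp
    rw [h4, ← h5]
    gcongr

end Pool.Agent.TH363.QI
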