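import Mathlib
import Pool.Prelude.Def_F_c31e40fa
import Pool.Agent.W746.LD.Basic
import Pool.Agent.Helper859.Br.C1

/-!
# In an open set without attracting cycles all cycles are repelling
-/

set_option autoImplicit false
open Set Filter Topology Metric Polynomial

namespace Pool.Agent.TH363.QI

open Pool.Agent.W746.LD

/-- The iterates, as polynomials in the point, over the polynomials in the parameter and an
auxiliary variable. -/
noncomputable def G (n : ℕ) : ℕ → (MvPolynomial (Fin 2) ℂ)[X]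
  | 0 => X
  | (p + 1) => (G n p) ^ n + C (MvPolynomial.X 0)

/-- Evaluation of the parameter and the auxiliary variable. -/
noncomputable def ev (t l : ℂ) : MvPolynomial (Fin 2) ℂ →+* ℂ := MvPolynomial.eval ![t, l]

theorem ev_X0 (t l : ℂ) : ev t l (MvPolynomial.X 0) = t := by simp [ev]

theorem ev_X1 (t l : ℂ) : ev t l (MvPolynomial.X 1) = l := by simp [ev]

theorem eval_G (n p : ℕ) (t l z : ℂ) : ((G n p).map (ev t l)).eval z = orb n t z p := by
  induction p with
  | zero => simp [G]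
  | succ p ih =>
    rw [G, Polynomial.map_add, Polynomial.map_pow, Polynomial.map_C, ev_X0, eval_add, eval_pow,
      eval_C, ih, orb_succ]

theorem monic_G {n : ℕ} (hn : 2 ≤ n) (p : ℕ) (t l : ℂ) :
    ((G n p).map (ev t l)).Monic ∧ ((G n p).map (ev t l)).natDegree = n ^ p := by
  induction p with
  | zero =>
    rw [G, Polynomial.map_X, pow_zero]
    exact ⟨Polynomial.monic_X, Polynomial.natDegree_X⟩
  | succ p ih =>
    obtain ⟨h1, h2⟩ := ih
    rw [G, Polynomial.map_add, Polynomial.map_pow, Polynomial.map_C, ev_X0]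
    have h3 : (((G n p).map (ev t l)) ^ n).Monic := h1.pow n
    have h4 : (((G n p).map (ev t l)) ^ n).natDegree = n ^ (p + 1) := by
      rw [h1.natDegree_pow, h2, pow_succ]
      ring
    have h5 : 0 < n ^ (p + 1) := by positivity
    have h6 : (C t : ℂ[X]).degree < (((G n p).map (ev t l)) ^ n).degree := by
      rw [Polynomial.degree_eq_natDegree h3.ne_zero, h4]
      refine lt_of_le_of_lt Polynomial.degree_C_le ?_
      exact_mod_cast h5
    refine ⟨h3.add_of_left h6, ?_⟩
    rw [Polynomial.natDegree_add_eq_left_of_degree_lt h6, h4]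

theorem eval_der_G (n p : ℕ) (t l z : ℂ) :
    ((derivative (G n p)).map (ev t l)).eval z = P n t z p := by
  rw [← Polynomial.derivative_map, ← Polynomial.deriv]
  have : (fun x => ((G n p).map (ev t l)).eval x) = fun x => orb n t x p := by
    funext x
    exact eval_G n p t l x
  rw [this]
  exact (hasDerivAt_orb z p).deriv

/-- The resultant. -/
noncomputable def Rr (n p : ℕ) : MvPolynomial (Fin 2) ℂ :=
  resultant (G n p - X) (derivative (G n p) - C (MvPolynomial.X 1)) (n ^ p) (n ^ p)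

theorem ev_Rr {n : ℕ} (hn : 2 ≤ n) {p : ℕ} (hp : 1 ≤ p) (t l : ℂ) :
    ev t l (Rr n p) = 0 ↔ ∃ z, orb n t z p = z ∧ P n t z p = l := by
  obtain ⟨h1, h2⟩ := monic_G hn p t l
  have hnp : 2 ≤ n ^ p := by
    calc 2 ≤ n := hn
      _ = n ^ 1 := (pow_one n).symm
      _ ≤ n ^ p := Nat.pow_le_pow_right (by omega) hp
  set g := (G n p).map (ev t l) with hg
  have hX : (X : ℂ[X]).degree < g.degree := by
    rw [Polynomial.degree_eq_natDegree h1.ne_zero, h2, Polynomial.degree_X]
    exact_mod_cast hnp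
  have hf1 : (g - X).Monic := h1.sub_of_left hX
  have hf2 : (g - X).natDegree = n ^ p := by
    rw [Polynomial.natDegree_sub_eq_left_of_natDegree_lt, h2]
    rw [Polynomial.natDegree_X, h2]
    omega
  have hmapf : (G n p - X).map (ev t l) = g - X := by
    rw [Polynomial.map_sub, Polynomial.map_X]
  have hmapg : (derivative (G n p) - C (MvPolynomial.X 1)).map (ev t l) = derivative g - C l := by
    rw [Polynomial.map_sub, Polynomial.map_C, ev_X1, Polynomial.derivative_map]
  have hdeg : (derivative g - C l).natDegree ≤ n ^ p := by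
    refine (Polynomial.natDegree_sub_le _ _).trans ?_
    rw [Polynomial.natDegree_C]
    have := Polynomial.natDegree_derivative_le g
    rw [h2] at this
    simp only [Nat.zero_le, sup_of_le_left]
    omega
  have key : ev t l (Rr n p) = ((g - X).roots.map (derivative g - C l).eval).prod := by
    rw [Rr, ← resultant_map_map, hmapf, hmapg]
    have h3 := resultant_eq_prod_eval (g - X) (derivative g - C l) (n ^ p) hdeg
      (IsAlgClosed.splits _)
    rw [hf2, hf1.leadingCoeff, one_pow, one_mul] at h3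
    exact h3
  rw [key, Multiset.prod_eq_zero_iff, Multiset.mem_map]
  have hev : ∀ z, (derivative g - C l).eval z = P n t z p - l := by
    intro z
    rw [eval_sub, eval_C, ← eval_der_G n p t l z, hg, Polynomial.derivative_map]
  constructor
  · rintro ⟨z, hz1, hz2⟩
    rw [Polynomial.mem_roots hf1.ne_zero, Polynomial.IsRoot.def, eval_sub, eval_X, hg, eval_G] at hz1
    rw [hev] at hz2
    exact ⟨z, sub_eq_zero.mp hz1, sub_eq_zero.mp hz2⟩
  · rintro ⟨z, hz1, hz2⟩
    refine ⟨z, ?_, ?_⟩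
    · rw [Polynomial.mem_roots hf1.ne_zero, Polynomial.IsRoot.def, eval_sub, eval_X, hg, eval_G, hz1,
        sub_self]
    · rw [hev, hz2, sub_self]

/-- The resultant as a polynomial in the parameter. -/
noncomputable def Ql (n p : ℕ) (l : ℂ) : ℂ[X] :=
  MvPolynomial.aeval ![(X : ℂ[X]), C l] (Rr n p)

theorem eval_Ql (n p : ℕ) (l t : ℂ) : (Ql n p l).eval t = ev t l (Rr n p) := by
  have h : (Polynomial.aeval t : ℂ[X] →ₐ[ℂ] ℂ).comp
      (MvPolynomial.aeval ![(X : ℂ[X]), C l]) = MvPolynomial.aeval ![t, l] := by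
    apply MvPolynomial.algHom_ext
    intro i
    fin_cases i <;> simp
  have h2 := DFunLike.congr_fun h (Rr n p)
  simp only [AlgHom.comp_apply] at h2
  rw [Ql, ev]
  rw [← Polynomial.coe_aeval_eq_eval]
  rw [h2, ← MvPolynomial.coe_aeval_eq_eval]
  rfl

theorem continuous_ev (R : MvPolynomial (Fin 2) ℂ) :
    Continuous fun x : ℂ × ℂ => ev x.1 x.2 R := by
  unfold ev
  have h := MvPolynomial.continuous_eval R
  refine h.comp ?_
  refine continuous_pi fun i => ?_
  fin_cases i
  · exact continuous_fst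
  · exact continuous_snd

attribute [irreducible] Rr Ql ev G

theorem norm_orb_zero (n : ℕ) (z : ℂ) (i : ℕ) : ‖orb n 0 z i‖ = ‖z‖ ^ (n ^ i) := by
  induction i with
  | zero => simp
  | succ i ih =>
    rw [orb_succ, add_zero, norm_pow, ih, ← pow_mul, pow_succ]

/-- At the parameter `0` no cycle has a multiplier of modulus one. -/
theorem zero_case {n : ℕ} (hn : 2 ≤ n) {p : ℕ} (hp : 1 ≤ p) {z : ℂ} (hz : orb n 0 z p = z) :
    ‖P n 0 z p‖ ≠ 1 := by
  have hnp : 2 ≤ n ^ p := by
    calc 2 ≤ n := hn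
      _ = n ^ 1 := (pow_one n).symm
      _ ≤ n ^ p := Nat.pow_le_pow_right (by omega) hp
  have h1 : ‖z‖ ^ (n ^ p) = ‖z‖ := by rw [← norm_orb_zero, hz]
  rcases eq_or_ne z 0 with rfl | hz0
  · have : P n 0 0 p = 0 := by
      unfold P
      apply Finset.prod_eq_zero (i := 0) (Finset.mem_range.mpr (by omega))
      rw [orb_zero, zero_pow (by omega), mul_zero]
    rw [this, norm_zero]
    norm_num
  · have hzp : 0 < ‖z‖ := norm_pos_iff.mpr hz0
    have h2 : ‖z‖ = 1 := by
      obtain ⟨m, hm⟩ : ∃ m, n ^ p = m + 1 := ⟨n ^ p - 1, by omega⟩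
      rw [hm, pow_succ] at h1
      have h3 : ‖z‖ ^ m = 1 := by
        have : ‖z‖ ^ m * ‖z‖ = 1 * ‖z‖ := by rw [h1, one_mul]
        exact mul_right_cancel₀ hzp.ne' this
      exact (pow_eq_one_iff_of_nonneg hzp.le (by omega)).mp h3
    have h3 : ‖P n 0 z p‖ = (n : ℝ) ^ p := by
      unfold P
      rw [norm_prod]
      rw [Finset.prod_congr rfl (g := fun _ => (n : ℝ))]
      · simp
      · intro i _
        rw [norm_mul, norm_pow, norm_orb_zero, h2, one_pow, one_pow, mul_one, Complex.norm_natCast]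
    rw [h3]
    have : (2 : ℝ) ≤ (n : ℝ) ^ p := by exact_mod_cast hnp
    linarith

/-- In a ball without attracting cycles all cycles are repelling. -/
theorem cyc {n : ℕ} (hn : 2 ≤ n) {a : ℂ} {r : ℝ}
    (hno : ∀ t ∈ ball a r, ¬ ∃ m z, N62a1eb23.IsAttractingCycle (fun z => z ^ n + t) m z)
    {t₀ : ℂ} (ht₀ : t₀ ∈ ball a r) {p : ℕ} (hp : 1 ≤ p) {z₀ : ℂ} (hz : orb n t₀ z₀ p = z₀) :
    1 < ‖P n t₀ z₀ p‖ := by
  have hatt : ∀ t ∈ ball a r, ∀ z, orb n t z p = z → 1 ≤ ‖P n t z p‖ := by
    intro t ht z h1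
    by_contra h2
    rw [not_le] at h2
    refine hno t ht ⟨p, z, by omega, h1, ?_, ?_⟩
    · exact (hasDerivAt_orb z p).differentiableAt
    · have := (hasDerivAt_orb (n := n) (c := t) z p).deriv
      have h3 : deriv (fun z => z ^ n + t)^[p] z = P n t z p := this
      rw [h3]
      exact h2
  by_contra hcon
  rw [not_lt] at hcon
  have heq : ‖P n t₀ z₀ p‖ = 1 := le_antisymm hcon (hatt t₀ ht₀ z₀ hz)
  set l₀ := P n t₀ z₀ p with hl₀
  set s : ℕ → ℂ := fun j => (1 - 1 / ((j : ℂ) + 1)) * l₀ with hs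
  have hsn : ∀ j, ‖s j‖ < 1 := by
    intro j
    have h1 : (1 - 1 / ((j : ℂ) + 1)) = (((1 - 1 / ((j : ℝ) + 1)) : ℝ) : ℂ) := by push_cast; ring
    have h2 : 0 ≤ 1 - 1 / ((j : ℝ) + 1) := by
      rw [sub_nonneg, div_le_one (by positivity)]
      linarith [(Nat.cast_nonneg j : (0:ℝ) ≤ j)]
    have h3 : 0 < 1 / ((j : ℝ) + 1) := by positivity
    rw [hs]
    simp only
    rw [norm_mul, heq, mul_one, h1, Complex.norm_real, Real.norm_eq_abs, abs_of_nonneg h2]
    linarith
  have hst : Tendsto s atTop (𝓝 l₀) := by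
    have h1 : Tendsto (fun j : ℕ => (1 - 1 / ((j : ℂ) + 1))) atTop (𝓝 (1 - 0)) :=
      tendsto_const_nhds.sub tendsto_one_div_add_atTop_nhds_zero_nat
    have h2 := h1.mul_const l₀
    rw [sub_zero, one_mul] at h2
    exact h2
  have hV : IsOpen (ball a r) := isOpen_ball
  obtain ⟨M, hM⟩ : ∃ M : ℝ, ∀ x ∈ closedBall a r ×ˢ closedBall (0 : ℂ) 1,
      ‖ev x.1 x.2 (Rr n p)‖ ≤ M :=
    ((isCompact_closedBall a r).prod (isCompact_closedBall (0 : ℂ) 1)).exists_bound_of_continuousOn
      (continuous_ev (Rr n p)).continuousOn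
  have hlim : TendstoLocallyUniformlyOn (fun j t => (Ql n p (s j)).eval t)
      (fun t => (Ql n p l₀).eval t) atTop (ball a r) := by
    apply Pool.Agent.Helper859.Br.C1.tlu_of_pointwise hV (M := M)
    · intro j
      exact (Ql n p (s j)).differentiable.differentiableOn
    · intro j t ht
      rw [eval_Ql]
      exact hM (t, s j) ⟨ball_subset_closedBall ht, by
        rw [mem_closedBall, dist_zero_right]; exact (hsn j).le⟩
    · intro t _
      have h1 : Tendsto (fun x : ℂ × ℂ => ev x.1 x.2 (Rr n p)) (𝓝 (t, l₀))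
          (𝓝 (ev t l₀ (Rr n p))) := (continuous_ev (Rr n p)).tendsto (t, l₀)
      have h2 : Tendsto (fun j => (t, s j)) atTop (𝓝 (t, l₀)) :=
        tendsto_const_nhds.prodMk_nhds hst
      have h3 : Tendsto (fun j => ev t (s j) (Rr n p)) atTop (𝓝 (ev t l₀ (Rr n p))) := h1.comp h2
      rw [eval_Ql]
      refine h3.congr fun j => ?_
      rw [eval_Ql]
  have hne : ∀ j, ∀ t ∈ ball a r, (Ql n p (s j)).eval t ≠ 0 := by
    intro j t ht h
    have h' : ev t (s j) (Rr n p) = 0 := by rw [← eval_Ql]; exact h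
    obtain ⟨z, h1, h2⟩ := (ev_Rr hn hp t (s j)).mp h'
    have h3 := hatt t ht z h1
    rw [h2] at h3
    exact absurd (hsn j) (not_lt.mpr h3)
  have h0 : (Ql n p l₀).eval t₀ = 0 := by
    rw [eval_Ql]
    exact (ev_Rr hn hp t₀ l₀).mpr ⟨z₀, hz, hl₀.symm⟩
  have hev := Pool.Agent.Helper859.Br.C1.hurwitz hV
    (fun j => (Ql n p (s j)).differentiable.differentiableOn) hlim hne ht₀ h0
  have hQ : Ql n p l₀ = 0 := by
    apply Polynomial.eq_zero_of_infinite_isRoot
    have h1 : {z | (Ql n p l₀).eval z = 0} ∈ 𝓝 t₀ := hev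
    have h2 : {z | (Ql n p l₀).eval z = 0}.Infinite := infinite_of_mem_nhds t₀ h1
    exact h2
  have h1 : ev 0 l₀ (Rr n p) = 0 := by rw [← eval_Ql, hQ, Polynomial.eval_zero]
  obtain ⟨z, h2, h3⟩ := (ev_Rr hn hp 0 l₀).mp h1
  apply zero_case hn hp h2
  rw [h3, heq]

end Pool.Agent.TH363.QI
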