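import Mathlib
import Pool.Prelude.Def_F_c31e40fa
import Pool.Agent.TH363.QI.Cyc
import Pool.Agent.W746.LD.Final

/-!
# In an open set without attracting cycles the critical orbit is infinite
-/

set_option autoImplicit false
open Set Filter Topology Metric

namespace Pool.Agent.TH363.QI

open Pool.Agent.W746.LD

theorem continuous_orb2 (n k : ℕ) : Continuous fun x : ℂ × ℂ => orb n x.1 x.2 k := by
  induction k with
  | zero => simpa using continuous_snd
  | succ k ih =>
    simp only [orb_succ]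
    exact (ih.pow n).add continuous_fst

theorem continuous_P2 (n k : ℕ) : Continuous fun x : ℂ × ℂ => P n x.1 x.2 k := by
  unfold P
  refine continuous_finsetProd _ fun i _ => ?_
  exact continuous_const.mul ((continuous_orb2 n i).pow _)

/-- Local expansion near a repelling periodic point, uniformly in the parameter. -/
theorem local_exp {n p : ℕ} {t₀ z₀ : ℂ} (h : 1 < ‖P n t₀ z₀ p‖) :
    ∃ ε > 0, ∃ θ : ℝ, 1 < θ ∧ ∀ t ∈ ball t₀ ε, ∀ z ∈ ball z₀ ε, ∀ w ∈ ball z₀ ε,
      θ * ‖z - w‖ ≤ ‖orb n t z p - orb n t w p‖ := by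
  set L := P n t₀ z₀ p with hL
  set η : ℝ := (‖L‖ - 1) / 2 with hη
  have hη0 : 0 < η := by rw [hη]; linarith
  have hc := (continuous_P2 n p).tendsto (t₀, z₀)
  rw [Metric.tendsto_nhds_nhds] at hc
  obtain ⟨ε, hε, h1⟩ := hc η hη0
  refine ⟨ε, hε, (‖L‖ + 1) / 2, by linarith, ?_⟩
  intro t ht z hz w hw
  have hb : ∀ x ∈ ball z₀ ε, ‖P n t x p - L‖ ≤ η := by
    intro x hx
    have h2 : dist (t, x) (t₀, z₀) < ε := by
      rw [Prod.dist_eq, max_lt_iff]
      exact ⟨ht, hx⟩
    have h3 := h1 h2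
    rw [dist_eq_norm] at h3
    exact h3.le
  have hd : ∀ x ∈ ball z₀ ε, HasDerivWithinAt (fun x => orb n t x p - L * x) (P n t x p - L)
      (ball z₀ ε) x := by
    intro x _
    have h2 := (hasDerivAt_orb (n := n) (c := t) x p).sub ((hasDerivAt_id x).const_mul L)
    rw [mul_one] at h2
    exact h2.hasDerivWithinAt
  have h2 := (convex_ball z₀ ε).norm_image_sub_le_of_norm_hasDerivWithin_le hd hb hw hz
  have h3 : orb n t z p - orb n t w p =
      L * (z - w) + ((orb n t z p - L * z) - (orb n t w p - L * w)) := by ring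
  rw [h3]
  have h4 := norm_sub_le (L * (z - w) + ((orb n t z p - L * z) - (orb n t w p - L * w)))
    ((orb n t z p - L * z) - (orb n t w p - L * w))
  rw [add_sub_cancel_right, norm_mul] at h4
  have h5 : 0 ≤ ‖z - w‖ := norm_nonneg _
  have h6 : (‖L‖ + 1) / 2 * ‖z - w‖ = ‖L‖ * ‖z - w‖ - η * ‖z - w‖ := by rw [hη]; ring
  rw [h6]
  linarith

/-- The critical value is not preperiodic in a ball of the Multibrot set without attracting
cycles. -/
theorem nopre {n : ℕ} (hn : 2 ≤ n) {a : ℂ} {r : ℝ}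
    (hno : ∀ t ∈ ball a r, ¬ ∃ m z, N62a1eb23.IsAttractingCycle (fun z => z ^ n + t) m z)
    (hsub : ball a r ⊆ N62a1eb23.multibrotSet n)
    {t₀ : ℂ} (ht₀ : t₀ ∈ ball a r) {l p : ℕ} (hp : 1 ≤ p) :
    orb n t₀ t₀ (l + p) ≠ orb n t₀ t₀ l := by
  intro heq
  set z₀ := orb n t₀ t₀ l with hz₀
  have hper : orb n t₀ z₀ p = z₀ := by rw [hz₀, ← orb_add]; exact heq
  have hrep := cyc hn hno ht₀ hp hper
  obtain ⟨ε, hε, θ, hθ, hexp⟩ := local_exp hrep
  obtain ⟨δ, hδ, hδ2⟩ := Metric.isOpen_iff.mp isOpen_ball t₀ ht₀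
  have hfix : ∀ s : ℕ, orb n t₀ t₀ (l + s * p) = z₀ := by
    intro s
    induction s with
    | zero => rw [zero_mul, add_zero]
    | succ s ih =>
      rw [show l + (s + 1) * p = (l + s * p) + p by ring, orb_add, ih, hper]
  have hbd : ∀ t ∈ ball t₀ δ, ∀ k, ‖orb n t t k‖ ≤ 2 := fun t ht k =>
    mem_multibrot_orb hn (hsub (hδ2 ht)) k
  have hlip : ∀ s : ℕ, ∀ t ∈ ball t₀ δ, dist (orb n t t (l + s * p)) z₀ ≤ 5 / δ * dist t t₀ := by
    intro s t ht
    have h1 : MapsTo (fun t => orb n t t (l + s * p)) (ball t₀ δ)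
        (ball ((fun t => orb n t t (l + s * p)) t₀) 5) := by
      intro x hx
      simp only
      rw [mem_ball, dist_eq_norm]
      have h2 := norm_sub_le (orb n x x (l + s * p)) (orb n t₀ t₀ (l + s * p))
      have h3 := hbd x hx (l + s * p)
      have h4 := hbd t₀ (mem_ball_self hδ) (l + s * p)
      linarith
    have h2 := Complex.dist_le_div_mul_dist_of_mapsTo_ball
      (diff_param (n := n) (l + s * p)).differentiableOn (h1.mono_right ball_subset_closedBall) ht
    simp only [hfix s] at h2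
    exact h2
  set ρ : ℝ := min (min ε δ) (ε * δ / 5) with hρ
  have hρ0 : 0 < ρ := by positivity
  have hall : ∀ t ∈ ball t₀ ρ, orb n t t (l + p) = orb n t t l := by
    intro t ht
    rw [mem_ball] at ht
    have hte : t ∈ ball t₀ ε := by
      rw [mem_ball]
      exact ht.trans_le ((min_le_left _ _).trans (min_le_left _ _))
    have htd : t ∈ ball t₀ δ := by
      rw [mem_ball]
      exact ht.trans_le ((min_le_left _ _).trans (min_le_right _ _))
    have hnear : ∀ s : ℕ, orb n t t (l + s * p) ∈ ball z₀ ε := by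
      intro s
      rw [mem_ball]
      refine (hlip s t htd).trans_lt ?_
      have h1 : dist t t₀ < ε * δ / 5 := ht.trans_le (min_le_right _ _)
      calc 5 / δ * dist t t₀ < 5 / δ * (ε * δ / 5) := by gcongr
        _ = ε := by field_simp
    have hstep : ∀ s : ℕ, θ ^ s * ‖orb n t t (l + 1 * p) - orb n t t (l + 0 * p)‖ ≤
        ‖orb n t t (l + (s + 1) * p) - orb n t t (l + s * p)‖ := by
      intro s
      induction s with
      | zero => simp
      | succ s ih =>
        have h1 := hexp t hte _ (hnear (s + 1)) _ (hnear s)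
        rw [← orb_add, ← orb_add] at h1
        rw [show l + (s + 1 + 1) * p = l + (s + 1) * p + p by ring]
        rw [show l + (s + 1) * p = l + s * p + p by ring] at h1 ih ⊢
        have h2 : θ ^ (s + 1) * ‖orb n t t (l + 1 * p) - orb n t t (l + 0 * p)‖ =
            θ * (θ ^ s * ‖orb n t t (l + 1 * p) - orb n t t (l + 0 * p)‖) := by rw [pow_succ]; ring
        rw [h2]
        refine le_trans ?_ h1
        gcongr
    by_contra hne
    have hd0 : 0 < ‖orb n t t (l + 1 * p) - orb n t t (l + 0 * p)‖ := by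
      rw [one_mul, zero_mul, add_zero, norm_pos_iff, sub_ne_zero]
      exact hne
    obtain ⟨s, hs⟩ := pow_unbounded_of_one_lt
      (5 / ‖orb n t t (l + 1 * p) - orb n t t (l + 0 * p)‖) hθ
    rw [div_lt_iff₀ hd0] at hs
    have h1 := hstep s
    have h2 := norm_sub_le (orb n t t (l + (s + 1) * p)) (orb n t t (l + s * p))
    have h3 := hbd t htd (l + (s + 1) * p)
    have h4 := hbd t htd (l + s * p)
    linarith
  have hpoly : Pool.Agent.H712R2.PP n (l + p + 1) - Pool.Agent.H712R2.PP n (l + 1) = 0 := by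
    apply Polynomial.eq_zero_of_infinite_isRoot
    apply (infinite_of_mem_nhds t₀ (ball_mem_nhds t₀ hρ0)).mono
    intro t ht
    change Polynomial.IsRoot _ t
    rw [Polynomial.IsRoot.def, Polynomial.eval_sub, Pool.Agent.H712R2.eval_PP,
      Pool.Agent.H712R2.eval_PP, P_eq_orb hn, P_eq_orb hn, hall t ht, sub_self]
  have hdeg := congrArg Polynomial.natDegree (sub_eq_zero.mp hpoly)
  rw [Pool.Agent.H712R2.natDegree_PP hn, Pool.Agent.H712R2.natDegree_PP hn] at hdeg
  have := Nat.pow_right_injective hn hdeg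
  omega

end Pool.Agent.TH363.QI
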