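import Mathlib
import Pool.Prelude.Def_F_c31e40fa
import Pool.Agent.TH363.QI.Crit
import Pool.Agent.TH363.QI.Pre
import Pool.Agent.TH363.QI.Landau

/-!
# The distance to the parameters with an attracting cycle
-/

set_option autoImplicit false
open Set Filter Topology Metric Finset

namespace Pool.Agent.TH363.QI

open Pool.Agent.W746.LD

/-- The growth rate of the derivative with respect to the parameter. -/
noncomputable def ups (n : ℕ) (c : ℂ) (i : ℕ) : ℝ := n * ‖D n c i‖ / ‖orb n c c i‖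

/-- The hypotheses at time `j`. -/
structure Hyps (n : ℕ) (c : ℂ) (A : ℝ) (j : ℕ) : Prop where
  ub : ∃ i ≤ j, ∑ m ∈ range (j + 1), ups n c m ≤ A * rho n c i
  lb : ∃ i ≤ j, ∑ m ∈ range (j + 1), rho n c m ≤ A * ups n c i

theorem ups_nonneg (n : ℕ) (c : ℂ) (i : ℕ) : 0 ≤ ups n c i := by unfold ups; positivity

theorem Hyps.both {n : ℕ} {c : ℂ} {A : ℝ} {j : ℕ} (hA : 1 ≤ A) (h : Hyps n c A j) :
    ∃ i ≤ j, ∑ m ∈ range (j + 1), rho n c m ≤ A ^ 2 * rho n c i := by
  obtain ⟨i, hi, h1⟩ := h.ub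
  obtain ⟨i', hi', h2⟩ := h.lb
  refine ⟨i, hi, ?_⟩
  have h3 : ups n c i' ≤ ∑ m ∈ range (j + 1), ups n c m :=
    single_le_sum (f := fun m => ups n c m) (fun m _ => ups_nonneg n c m)
      (Finset.mem_range.mpr (by omega))
  calc ∑ m ∈ range (j + 1), rho n c m ≤ A * ups n c i' := h2
    _ ≤ A * (A * rho n c i) := by
        have : 0 ≤ A := by linarith
        gcongr
        exact h3.trans h1
    _ = _ := by ring

/-- The setting: a ball in the Multibrot set without attracting cycles. -/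
structure Setting (n : ℕ) (c : ℂ) (r A : ℝ) (k : ℕ) : Prop where
  hn : 2 ≤ n
  hcM : c ∈ N62a1eb23.multibrotSet n
  hr : 0 < r
  hno : ∀ t ∈ ball c r, ¬ ∃ m z, N62a1eb23.IsAttractingCycle (fun z => z ^ n + t) m z
  hA : 1 ≤ A
  H : ∀ j ≤ k, Hyps n c A j

variable {n : ℕ} {c : ℂ} {r A : ℝ} {k : ℕ}

theorem Setting.nz (s : Setting n c r A k) : ∀ t ∈ ball c r, ∀ i, orb n t t i ≠ 0 := by
  intro t ht i
  rw [← P_eq_orb s.hn]
  exact Pool.Agent.H713R2.AR.P_ne_zero s.hn (s.hno t ht) (by omega)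

theorem Setting.sub (s : Setting n c r A k) : ball c r ⊆ N62a1eb23.multibrotSet n :=
  Pool.Agent.H713R2.AR.ball_subset s.hn s.hr s.hcM s.hno

theorem Setting.np (s : Setting n c r A k) : ∀ t ∈ ball c r, ∀ l p, 1 ≤ p →
    orb n t t (l + p) ≠ orb n t t l :=
  fun _ ht _ _ hp => nopre s.hn s.hno s.sub ht hp

theorem Setting.z (s : Setting n c r A k) (i : ℕ) : 0 < ‖orb n c c i‖ :=
  norm_pos_iff.mpr (s.nz c (mem_ball_self s.hr) i)

theorem Setting.crit (s : Setting n c r A k) (i : ℕ) :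
    1 / 20 ≤ ‖orb n c c i‖ ^ n * ∑ m ∈ range (i + 1), rho n c m := by
  by_contra hcon
  push Not at hcon
  exact s.hno c (mem_ball_self s.hr)
    (attracting s.hn (fun m _ => s.nz c (mem_ball_self s.hr) m) hcon)

/-- A good time: the derivative is at least those up to `k`, and the orbit is not too close to `0`. -/
def Good (n : ℕ) (c : ℂ) (A : ℝ) (k v : ℕ) : Prop :=
  (∀ i ≤ k, ups n c i ≤ ups n c v) ∧
    ∃ j ≤ k, 1 ≤ 20 * A ^ 2 * (‖orb n c c v‖ ^ n * rho n c j)

/-- A time at which the orbit is not closer to `0` than at some time before `k`. -/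
theorem Setting.near (s : Setting n c r A k) {v j : ℕ} (hj : j ≤ k)
    (hjv : ‖orb n c c j‖ ≤ ‖orb n c c v‖) :
    ∃ i ≤ k, 1 ≤ 20 * A ^ 2 * (‖orb n c c v‖ ^ n * rho n c i) := by
  have hn := s.hn
  have hz : ∀ i, orb n c c i ≠ 0 := s.nz c (mem_ball_self s.hr)
  have hρ : ∀ i, 0 < rho n c i := fun i => rho_pos hn fun m _ => hz m
  obtain ⟨i, hi, h1⟩ := (s.H j hj).both s.hA
  refine ⟨i, by omega, ?_⟩
  have h2 := s.crit j
  have h3 : 0 ≤ ∑ m ∈ range (j + 1), rho n c m := sum_nonneg fun i _ => (hρ i).le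
  have h4 : ‖orb n c c j‖ ^ n * ∑ m ∈ range (j + 1), rho n c m ≤
      ‖orb n c c v‖ ^ n * (A ^ 2 * rho n c i) :=
    mul_le_mul (pow_le_pow_left₀ (norm_nonneg _) hjv n) h1 h3 (by positivity)
  linarith

/-- The step. -/
theorem Setting.step (s : Setting n c r A k) {v : ℕ} (hv : Good n c A k v) :
    r * ups n c v ≤ 16 * (C₁ + 9 + 4 * Real.log A) ∨
      ∃ v', Good n c A k v' ∧ 3 / 2 * ups n c v ≤ ups n c v' := by
  have hn := s.hn
  have hA := s.hA
  have hn0 : (0 : ℝ) < n := by
    have : 0 < n := by omega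
    exact_mod_cast this
  have hn2 : (2 : ℝ) ≤ n := by exact_mod_cast hn
  have hA0 : 0 < A := by linarith
  have hA2 : 1 ≤ A ^ 2 := one_le_pow₀ hA
  have hA4 : 1 ≤ A ^ 4 := one_le_pow₀ hA
  have hc : c ∈ ball c r := mem_ball_self s.hr
  have hnz := s.nz
  have hz : ∀ i, orb n c c i ≠ 0 := hnz c hc
  have hz0 := s.z
  have hnp := s.np
  have hρ : ∀ i, 0 < rho n c i := fun i => rho_pos hn fun m _ => hz m
  obtain ⟨hvk, j, hjk, hjv⟩ := hv
  set g : ℝ := ‖orb n c c v‖ ^ n with hg
  have hg0 : 0 < g := by have := hz0 v; positivity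
  have hgN : ‖orb n c c (v + 1) - c‖ = g := norm_orb_succ_sub c v
  -- the stopping time
  have hstop : ∃ q, q = k ∨ 1 / 288 ≤ g * ∑ m ∈ range (q + 1), rho n c m ∨
      ups n c v < 32 * ∑ m ∈ range (q + 1), ups n c m := ⟨k, Or.inl rfl⟩
  classical
  obtain ⟨q, hq, hqmin⟩ : ∃ q, (q = k ∨ 1 / 288 ≤ g * ∑ m ∈ range (q + 1), rho n c m ∨
      ups n c v < 32 * ∑ m ∈ range (q + 1), ups n c m) ∧
      ∀ q' < q, ¬ (q' = k ∨ 1 / 288 ≤ g * ∑ m ∈ range (q' + 1), rho n c m ∨
        ups n c v < 32 * ∑ m ∈ range (q' + 1), ups n c m) :=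
    ⟨Nat.find hstop, Nat.find_spec hstop, fun q' hq' => Nat.find_min hstop hq'⟩
  have hqk : q ≤ k := by
    by_contra hcon
    push Not at hcon
    exact hqmin k hcon (Or.inl rfl)
  have huv0 : 0 < ups n c v := by
    refine lt_of_lt_of_le ?_ (hvk 0 (Nat.zero_le _))
    unfold ups
    have := hz0 0
    rw [D_zero, norm_one]
    positivity
  have hsq : g * ∑ m ∈ range q, rho n c m ≤ 1 / 288 ∧
      32 * ∑ m ∈ range q, ups n c m ≤ ups n c v := by
    rcases Nat.eq_zero_or_pos q with h0 | h0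
    · rw [h0]
      simp only [Finset.range_zero, Finset.sum_empty, mul_zero]
      exact ⟨by norm_num, huv0.le⟩
    · obtain ⟨q₁, rfl⟩ : ∃ q₁, q = q₁ + 1 := ⟨q - 1, by omega⟩
      have := hqmin q₁ (by omega)
      push Not at this
      exact ⟨this.2.1.le, this.2.2⟩
  obtain ⟨q', hq'mem, hq'max⟩ := exists_max_image (range (q + 1)) (rho n c) ⟨0, by simp⟩
  have hq'q : q' ≤ q := by
    rw [Finset.mem_range] at hq'mem
    omega
  have hq'max' : ∀ i ≤ q, rho n c i ≤ rho n c q' := fun i hi =>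
    hq'max i (Finset.mem_range.mpr (by omega))
  have hgq' : 1 / (640 * A ^ 4) ≤ g * rho n c q' := by
    rw [div_le_iff₀ (by positivity)]
    have hgρ : 0 < g * rho n c q' := mul_pos hg0 (hρ q')
    rcases hq with h1 | h1 | h1
    · -- the last time
      have h2 : g * rho n c j ≤ g * rho n c q' := by
        have := hq'max' j (by omega)
        gcongr
      calc (1 : ℝ) ≤ 20 * A ^ 2 * (g * rho n c j) := hjv
        _ ≤ 20 * A ^ 2 * (g * rho n c q') := by gcongr
        _ ≤ 640 * A ^ 4 * (g * rho n c q') := by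
            have : 20 * A ^ 2 ≤ 640 * A ^ 4 := by nlinarith
            gcongr
        _ = _ := by ring
    · obtain ⟨i, hi, h2⟩ := (s.H q hqk).both hA
      have h3 : g * ∑ m ∈ range (q + 1), rho n c m ≤ g * (A ^ 2 * rho n c q') := by
        have := hq'max' i hi
        refine mul_le_mul_of_nonneg_left (h2.trans ?_) hg0.le
        gcongr
      have h4 : g * (A ^ 2 * rho n c q') * 288 ≤ g * rho n c q' * (640 * A ^ 4) := by
        have : A ^ 2 * 288 ≤ 640 * A ^ 4 := by nlinarith
        calc g * (A ^ 2 * rho n c q') * 288 = g * rho n c q' * (A ^ 2 * 288) := by ring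
          _ ≤ g * rho n c q' * (640 * A ^ 4) := by gcongr
      linarith
    · obtain ⟨i, hi, h2⟩ := (s.H q hqk).ub
      obtain ⟨i', hi', h3⟩ := (s.H k le_rfl).lb
      have h4 : rho n c j ≤ A * ups n c v := by
        calc rho n c j ≤ ∑ m ∈ range (k + 1), rho n c m :=
              single_le_sum (f := fun m => rho n c m) (fun m _ => (hρ m).le)
                (Finset.mem_range.mpr (by omega))
          _ ≤ A * ups n c i' := h3
          _ ≤ A * ups n c v := by
              have := hvk i' hi'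
              gcongr
      have h5 : rho n c j ≤ 32 * A ^ 2 * rho n c q' := by
        calc rho n c j ≤ A * ups n c v := h4
          _ ≤ A * (32 * (A * rho n c i)) := by
              have : ups n c v ≤ 32 * (A * rho n c i) := by linarith
              gcongr
          _ ≤ A * (32 * (A * rho n c q')) := by
              have := hq'max' i hi
              gcongr
          _ = _ := by ring
      calc (1 : ℝ) ≤ 20 * A ^ 2 * (g * rho n c j) := hjv
        _ ≤ 20 * A ^ 2 * (g * (32 * A ^ 2 * rho n c q')) := by gcongr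
        _ = _ := by ring
  -- the displacement
  have hgrow := dsp_growth hn (c := c) (j := q) (fun m _ => hz m) (orb n c c (v + 1)) (by
    rw [hgN]; linarith [hsq.1])
  rw [hgN] at hgrow
  have hWlow : 1 / (854 * A ^ 4) ≤ n * ‖W n c (v + 1) q'‖ := by
    have h1 := (hgrow q' hq'q).1
    have h3 : 1 / (854 * A ^ 4) ≤ 1 / (640 * A ^ 4) * (3 / 4) := by
      rw [div_mul_div_comm, div_le_div_iff₀ (by positivity) (by positivity)]
      nlinarith
    calc 1 / (854 * A ^ 4) ≤ 1 / (640 * A ^ 4) * (3 / 4) := h3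
      _ ≤ g * rho n c q' * (3 / 4) := by gcongr
      _ ≤ n * ‖W n c (v + 1) q'‖ := h1
  have hne : ∀ i, orb n c c (v + 1 + i) ≠ orb n c c i := by
    intro i
    rw [add_comm]
    exact hnp c hc i (v + 1) (by omega)
  have hU0 : ‖U n c (v + 1) 0‖ = ups n c v := by
    rw [U_zero hn (hz v), norm_div, norm_mul, Complex.norm_natCast, ups]
  have hclose := U_close hn (c := c) (N := v + 1) (q := q) (fun i _ => hz i) (fun i _ => hne i) (by
      calc 3 * ∑ i ∈ range q, (n : ℝ) * ‖W n c (v + 1) i‖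
          ≤ 3 * ∑ i ∈ range q, g * rho n c i * (3 / 2) := by
            apply mul_le_mul_of_nonneg_left _ (by norm_num)
            apply sum_le_sum
            intro i hi
            rw [Finset.mem_range] at hi
            exact (hgrow i hi.le).2
        _ = 9 / 2 * (g * ∑ i ∈ range q, rho n c i) := by
            rw [← sum_mul, ← mul_sum]; ring
        _ ≤ 1 / 64 := by linarith [hsq.1]) (by
      rw [hU0]
      have h1 : ∑ i ∈ range q, n * ‖D n c i‖ / ‖orb n c c i‖ = ∑ i ∈ range q, ups n c i := rfl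
      rw [h1]
      linarith [hsq.2]) q' hq'q
  rw [hU0] at hclose
  have hUlow : 7 / 8 * ups n c v ≤ ‖U n c (v + 1) q'‖ := by
    have h1 : ups n c v ≤ ‖U n c (v + 1) q'‖ + ‖U n c (v + 1) q' - U n c (v + 1) 0‖ := by
      rw [← hU0]
      have := norm_sub_le (U n c (v + 1) q') (U n c (v + 1) q' - U n c (v + 1) 0)
      rwa [sub_sub_cancel] at this
    linarith
  have hDq : n * ‖D n c q' / orb n c c q'‖ ≤ ups n c v := by
    have h4 := hvk q' (by omega)
    rw [norm_div, ← mul_div_assoc]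
    exact h4
  have hDq0 : 0 ≤ ‖D n c q' / orb n c c q'‖ := norm_nonneg _
  have hDq2 : ‖D n c q' / orb n c c q'‖ ≤ ups n c v / 2 := by nlinarith
  rcases lt_or_ge 10 ‖W n c (v + 1) q'‖ with hbig | hsmall
  · -- a new good time
    right
    have hWne : 1 + W n c (v + 1) q' ≠ 0 := by
      intro h0
      apply hz (v + 1 + q')
      rw [orb_shift (hz q'), h0, mul_zero]
    have h1W : ‖1 + W n c (v + 1) q'‖ ≤ 1 + ‖W n c (v + 1) q'‖ := by
      refine (norm_add_le _ _).trans ?_
      rw [norm_one]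
    have h1W' : ‖W n c (v + 1) q'‖ - 1 ≤ ‖1 + W n c (v + 1) q'‖ := by
      have := norm_sub_norm_le (W n c (v + 1) q') (-1)
      rw [norm_neg, norm_one, sub_neg_eq_add, add_comm (W n c (v + 1) q')] at this
      exact this
    have h1W0 : 0 < ‖1 + W n c (v + 1) q'‖ := norm_pos_iff.mpr hWne
    have hgrowth : 3 / 2 * ups n c v ≤ ups n c (v + 1 + q') := by
      have e : D n c (v + 1 + q') / orb n c c (v + 1 + q') =
          (U n c (v + 1) q' * W n c (v + 1) q' + D n c q' / orb n c c q') /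
            (1 + W n c (v + 1) q') := by
        rw [orb_shift (hz q'), D_shift (hz q') (hne q')]
        have := hz q'
        field_simp
        ring
      have e2 : ups n c (v + 1 + q') = n * ‖D n c (v + 1 + q') / orb n c c (v + 1 + q')‖ := by
        rw [norm_div, ← mul_div_assoc, ups]
      rw [e2, e, norm_div, ← mul_div_assoc, le_div_iff₀ h1W0]
      have h2 : ‖U n c (v + 1) q'‖ * ‖W n c (v + 1) q'‖ - ‖D n c q' / orb n c c q'‖ ≤
          ‖U n c (v + 1) q' * W n c (v + 1) q' + D n c q' / orb n c c q'‖ := by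
        have := norm_sub_norm_le (U n c (v + 1) q' * W n c (v + 1) q') (-(D n c q' / orb n c c q'))
        rw [norm_neg, sub_neg_eq_add, norm_mul] at this
        exact this
      have h3 : 7 / 8 * ups n c v * ‖W n c (v + 1) q'‖ ≤
          ‖U n c (v + 1) q'‖ * ‖W n c (v + 1) q'‖ := by gcongr
      have h4 : n * (7 / 8 * ups n c v * ‖W n c (v + 1) q'‖) - ups n c v ≤
          n * ‖U n c (v + 1) q' * W n c (v + 1) q' + D n c q' / orb n c c q'‖ := by
        have h5 : n * (7 / 8 * ups n c v * ‖W n c (v + 1) q'‖ - ‖D n c q' / orb n c c q'‖) ≤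
            n * ‖U n c (v + 1) q' * W n c (v + 1) q' + D n c q' / orb n c c q'‖ := by
          gcongr
          linarith
        rw [mul_sub] at h5
        linarith
      refine le_trans ?_ h4
      have h5 : 2 * (7 / 8 * ups n c v * ‖W n c (v + 1) q'‖) ≤
          n * (7 / 8 * ups n c v * ‖W n c (v + 1) q'‖) := by gcongr
      have h6 : 3 / 2 * ups n c v * ‖1 + W n c (v + 1) q'‖ ≤
          3 / 2 * ups n c v * (1 + ‖W n c (v + 1) q'‖) := by gcongr
      nlinarith
    refine ⟨v + 1 + q', ⟨fun i hi => by have := hvk i hi; linarith, ?_⟩, hgrowth⟩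
    refine s.near (j := q') (by omega) ?_
    rw [orb_shift (hz q'), norm_mul]
    have := hz0 q'
    nlinarith
  left
  set T : ℂ := U n c (v + 1) q' - D n c q' / orb n c c q' with hT
  have hTlow : 3 / 8 * ups n c v ≤ ‖T‖ := by
    have h2 : ‖U n c (v + 1) q'‖ ≤ ‖T‖ + ‖D n c q' / orb n c c q'‖ := by
      have := norm_add_le T (D n c q' / orb n c c q')
      rwa [hT, sub_add_cancel] at this
    linarith
  have hX : 1 ≤ 854 * A ^ 4 := by linarith
  have hWup : ‖W n c (v + 1) q'‖ ≤ 854 * A ^ 4 := by linarith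
  obtain ⟨ω, hω, hω1, hωpos, hlow, hupp⟩ := exists_root hn hX hWlow hWup
  have hωne : ω - 1 ≠ 0 := sub_ne_zero.mpr hω1
  set h : ℂ → ℂ := fun t => (orb n t t (v + 1 + q') / orb n t t q' - 1) / (ω - 1) with hh
  have hhc : h c = W n c (v + 1) q' / (ω - 1) := by
    rw [hh, W_eq]
  have hder : HasDerivAt h (W n c (v + 1) q' * T / (ω - 1)) c :=
    (hasDerivAt_W (hz q') (hne q')).div_const (ω - 1)
  have hWne : W n c (v + 1) q' ≠ 0 := by
    intro h0
    apply hne q'
    rw [orb_shift (hz q'), h0, add_zero, mul_one]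
  have hdiff : DifferentiableOn ℂ h (ball c r) := by
    intro t ht
    have h1 : DifferentiableAt ℂ h t :=
      (((diff_param (n := n) (v + 1 + q') t).fun_div (diff_param (n := n) q' t)
        (hnz t ht q')).sub_const 1).div_const (ω - 1)
    exact h1.differentiableWithinAt
  have h0 : ∀ t ∈ ball c r, h t ≠ 0 := by
    intro t ht h1
    rw [hh] at h1
    have h2 := (div_eq_zero_iff.mp h1).resolve_right hωne
    rw [sub_eq_zero, div_eq_one_iff_eq (hnz t ht q')] at h2
    rw [add_comm] at h2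
    exact hnp t ht q' (v + 1) (by omega) h2
  have h1 : ∀ t ∈ ball c r, h t ≠ 1 := by
    intro t ht h1
    rw [hh] at h1
    have h2 := (div_eq_one_iff_eq hωne).mp h1
    have h3 : orb n t t (v + 1 + q') = ω * orb n t t q' := by
      rw [← div_eq_iff (hnz t ht q')]
      linear_combination h2
    have h4 : orb n t t (q' + 1 + (v + 1)) = orb n t t (q' + 1) := by
      rw [show q' + 1 + (v + 1) = v + 1 + q' + 1 by ring, orb_succ, orb_succ, h3, mul_pow, hω,
        one_mul]
    exact hnp t ht (q' + 1) (v + 1) (by omega) h4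
  have hL := landau s.hr hdiff h0 h1 hder
  have hrat : W n c (v + 1) q' * T / (ω - 1) / h c = T := by
    rw [hhc]
    field_simp
  rw [hrat] at hL
  have hlog : |Real.log ‖h c‖| ≤ 9 + 4 * Real.log A := by
    rw [hhc, norm_div]
    have e1 : Real.log (7 * (854 * A ^ 4)) ≤ 9 + 4 * Real.log A := by
      have h2 : (7 * (854 * A ^ 4)) = 5978 * A ^ 4 := by ring
      rw [h2, Real.log_mul (by norm_num) (by positivity), Real.log_pow]
      have h3 : Real.log 5978 ≤ 9 := by
        rw [Real.log_le_iff_le_exp (by norm_num)]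
        have h4 := Real.exp_one_gt_d9
        have h5 : Real.exp 9 = (Real.exp 1) ^ 9 := by
          rw [← Real.exp_nat_mul]; norm_num
        rw [h5]
        calc (5978 : ℝ) ≤ 2.7182818283 ^ 9 := by norm_num
          _ ≤ _ := by gcongr
      push_cast
      linarith
    have hpos : 0 < ‖W n c (v + 1) q'‖ / ‖ω - 1‖ := by
      have := norm_pos_iff.mpr hWne
      positivity
    rw [abs_le]
    constructor
    · have h2 := Real.log_le_log (by positivity) hlow
      rw [one_div, Real.log_inv] at h2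
      linarith
    · have h2 := Real.log_le_log hpos hupp
      have h3 : Real.log (854 * A ^ 4) ≤ Real.log (7 * (854 * A ^ 4)) := by
        apply Real.log_le_log (by positivity)
        linarith
      linarith
  have hr := s.hr
  have h2 : 3 / 8 * ups n c v * r ≤ ‖T‖ * r := by
    gcongr
  have hC₁ := C₁_nonneg
  have hlogA : 0 ≤ Real.log A := Real.log_nonneg hA
  linarith

/-- The derivatives at the good times are bounded. -/
theorem Setting.bounded (s : Setting n c r A k) :
    ∃ B : ℝ, ∀ v, Good n c A k v → r * ups n c v ≤ B := by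
  refine ⟨2 * (n * Real.log 3 +
    Real.log (20 * A ^ 2 * ∑ j ∈ range (k + 1), rho n c j)), ?_⟩
  intro v hv
  obtain ⟨-, j, hjk, hjv⟩ := hv
  have hn := s.hn
  have hn0 : (0 : ℝ) < n := by
    have : 0 < n := by omega
    exact_mod_cast this
  have hA := s.hA
  have hA0 : 0 < A := by linarith
  have hz : ∀ i, orb n c c i ≠ 0 := s.nz c (mem_ball_self s.hr)
  have hρ : ∀ i, 0 < rho n c i := fun i => rho_pos hn fun m _ => hz m
  have h1 := schwarz_log (F := fun t => orb n t t v) (B := 3) s.hr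
    (diff_param (n := n) v).differentiableOn (fun t ht => s.nz t ht v) (fun t ht => by
      have := mem_multibrot_orb s.hn (s.sub ht) v
      linarith)
  rw [(hasDerivAt_D n c v).deriv] at h1
  have hzv := s.z v
  have h2 : n * Real.log (3 / ‖orb n c c v‖) ≤ n * Real.log 3 +
      Real.log (20 * A ^ 2 * ∑ j ∈ range (k + 1), rho n c j) := by
    rw [Real.log_div (by norm_num) hzv.ne', mul_sub]
    have h3 : 1 ≤ ‖orb n c c v‖ ^ n * (20 * A ^ 2 * ∑ j ∈ range (k + 1), rho n c j) := by
      calc (1 : ℝ) ≤ 20 * A ^ 2 * (‖orb n c c v‖ ^ n * rho n c j) := hjv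
        _ = ‖orb n c c v‖ ^ n * (20 * A ^ 2 * rho n c j) := by ring
        _ ≤ _ := by
            gcongr
            exact single_le_sum (f := fun m => rho n c m) (fun m _ => (hρ m).le)
              (Finset.mem_range.mpr (by omega))
    have h4 := Real.log_nonneg h3
    have h5 : 0 < ∑ j ∈ range (k + 1), rho n c j := by
      apply sum_pos (fun i _ => hρ i) ⟨0, by simp⟩
    rw [Real.log_mul (by positivity) (by positivity), Real.log_pow] at h4
    linarith
  have h3 : r * ups n c v = n * ((‖D n c v‖ * r) / ‖orb n c c v‖) := by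
    unfold ups; ring
  have h4 : (‖D n c v‖ * r) / ‖orb n c c v‖ ≤ 2 * Real.log (3 / ‖orb n c c v‖) := by
    rw [div_le_iff₀ hzv]
    linarith
  rw [h3]
  calc n * ((‖D n c v‖ * r) / ‖orb n c c v‖) ≤ n * (2 * Real.log (3 / ‖orb n c c v‖)) := by gcongr
    _ = 2 * (n * Real.log (3 / ‖orb n c c v‖)) := by ring
    _ ≤ _ := by gcongr

/-- The bound for the radius of a ball without attracting cycles. -/
theorem Setting.core (s : Setting n c r A k) {v₀ : ℕ} (hv₀ : Good n c A k v₀)
    (hpos : 0 < ups n c v₀) : r * ups n c v₀ ≤ 16 * (C₁ + 9 + 4 * Real.log A) := by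
  by_contra hcon
  push Not at hcon
  have hr := s.hr
  have hall : ∀ i : ℕ, ∃ v, Good n c A k v ∧ (3 / 2) ^ i * ups n c v₀ ≤ ups n c v := by
    intro i
    induction i with
    | zero => exact ⟨v₀, hv₀, by simp⟩
    | succ i ih =>
      obtain ⟨v, hv, h1⟩ := ih
      rcases s.step hv with h2 | ⟨v', hv', h2⟩
      · exfalso
        have h3 : 1 ≤ ((3 : ℝ) / 2) ^ i := one_le_pow₀ (by norm_num)
        have h4 : ups n c v₀ ≤ ups n c v := by nlinarith
        have h5 : r * ups n c v₀ ≤ r * ups n c v := by gcongr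
        linarith
      · refine ⟨v', hv', ?_⟩
        rw [pow_succ]
        linarith
  obtain ⟨B, hB⟩ := s.bounded
  have hpos' : 0 < r * ups n c v₀ := by positivity
  obtain ⟨i, hi⟩ := pow_unbounded_of_one_lt (B / (r * ups n c v₀)) (by norm_num : (1 : ℝ) < 3 / 2)
  obtain ⟨v, hv, h1⟩ := hall i
  have h2 := hB v hv
  rw [div_lt_iff₀ hpos'] at hi
  have h3 : r * ((3 / 2) ^ i * ups n c v₀) ≤ r * ups n c v := by gcongr
  linarith

/-- The distance to the parameters with an attracting cycle. -/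
theorem dist_le : ∃ C : ℝ, 0 < C ∧ ∀ n : ℕ, 2 ≤ n → ∀ c ∈ N62a1eb23.multibrotSet n, ∀ A : ℝ, 1 ≤ A →
    ∀ k : ℕ, ((∀ i, orb n c c i ≠ 0) → ∀ j ≤ k, Hyps n c A j) →
      ∀ v, ((∃ j ≤ k, ‖orb n c c j‖ ≤ ‖orb n c c v‖) ∨
        ∃ j ≤ k, ‖orb n c c j‖ ≤ A * (n * ‖P n c c j‖ * ‖orb n c c v‖ ^ n)) →
      ∃ c', (∃ m z, N62a1eb23.IsAttractingCycle (fun z => z ^ n + c') m z) ∧
        n * ‖D n c v‖ * ‖c' - c‖ ≤ C * (1 + Real.log A) * ‖orb n c c v‖ ∧
        ∀ j ≤ k, n * ‖D n c j‖ * ‖c' - c‖ ≤ C * (1 + Real.log A) * ‖orb n c c j‖ := by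
  have hC₁ := C₁_nonneg
  refine ⟨16 * (C₁ + 9) + 65, by linarith, ?_⟩
  intro n hn c hcM A hA k H v hv
  have hlogA : 0 ≤ Real.log A := Real.log_nonneg hA
  have hn0 : (0 : ℝ) < n := by
    have : 0 < n := by omega
    exact_mod_cast this
  by_cases hhyp : ∃ m z, N62a1eb23.IsAttractingCycle (fun z => z ^ n + c) m z
  · refine ⟨c, hhyp, ?_, ?_⟩
    · rw [sub_self, norm_zero, mul_zero]
      positivity
    intro j _
    rw [sub_self, norm_zero, mul_zero]
    positivity
  have hz : ∀ i, orb n c c i ≠ 0 := by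
    intro i
    rw [← P_eq_orb hn]
    exact Pool.Agent.H713R2.AR.P_ne_zero hn hhyp (by omega)
  have H := H hz
  have hz0 : ∀ i, 0 < ‖orb n c c i‖ := fun i => norm_pos_iff.mpr (hz i)
  have hρ : ∀ i, 0 < rho n c i := fun i => rho_pos hn fun m _ => hz m
  obtain ⟨k', hk', hmax⟩ := exists_max_image (range (k + 1)) (ups n c) ⟨0, by simp⟩
  rw [Finset.mem_range] at hk'
  have hmax' : ∀ i ≤ k, ups n c i ≤ ups n c k' := fun i hi =>
    hmax i (Finset.mem_range.mpr (by omega))
  -- the time that is used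
  obtain ⟨w, hw1, hw2, hwv⟩ : ∃ w, (∀ i ≤ k, ups n c i ≤ ups n c w) ∧
      (w ≤ k ∨ w = v) ∧ ups n c v ≤ ups n c w := by
    rcases le_total (ups n c k') (ups n c v) with h1 | h1
    · exact ⟨v, fun i hi => (hmax' i hi).trans h1, Or.inr rfl, le_rfl⟩
    · exact ⟨k', hmax', Or.inl (by omega), h1⟩
  have hu : 0 < ups n c w := by
    refine lt_of_lt_of_le ?_ (hw1 0 (Nat.zero_le _))
    unfold ups
    have := hz0 0
    rw [D_zero, norm_one]
    positivity
  set r : ℝ := (16 * (C₁ + 9) + 65) * (1 + Real.log A) / ups n c w with hr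
  have hr0 : 0 < r := by positivity
  have hex : ∃ t ∈ ball c r, ∃ m z, N62a1eb23.IsAttractingCycle (fun z => z ^ n + t) m z := by
    by_contra hcon
    push Not at hcon
    have s : Setting n c r A k := ⟨hn, hcM, hr0, (fun t ht => by
      push Not
      exact hcon t ht), hA, H⟩
    have hw : Good n c A k w := by
      refine ⟨hw1, ?_⟩
      rcases hw2 with h1 | rfl
      · exact s.near h1 le_rfl
      rcases hv with ⟨j, hj, h1⟩ | ⟨j, hj, h1⟩
      · exact s.near hj h1
      · refine ⟨j, hj, ?_⟩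
        have h2 : 1 ≤ A * (‖orb n c c w‖ ^ n * rho n c j) := by
          have h3 : A * (‖orb n c c w‖ ^ n * rho n c j) =
              A * (n * ‖P n c c j‖ * ‖orb n c c w‖ ^ n) / ‖orb n c c j‖ := by
            unfold rho; ring
          rw [h3, one_le_div (hz0 j)]
          exact h1
        have h3 : 0 < ‖orb n c c w‖ ^ n * rho n c j := by
          have := hz0 w
          have := hρ j
          positivity
        have h4 : A ≤ 20 * A ^ 2 := by nlinarith
        calc (1 : ℝ) ≤ A * (‖orb n c c w‖ ^ n * rho n c j) := h2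
          _ ≤ 20 * A ^ 2 * (‖orb n c c w‖ ^ n * rho n c j) := by gcongr
    have h1 := s.core hw hu
    rw [hr, div_mul_cancel₀ _ hu.ne'] at h1
    nlinarith
  obtain ⟨t, ht, hth⟩ := hex
  rw [mem_ball_iff_norm] at ht
  have key : ∀ j, ups n c j ≤ ups n c w →
      n * ‖D n c j‖ * ‖t - c‖ ≤ (16 * (C₁ + 9) + 65) * (1 + Real.log A) * ‖orb n c c j‖ := by
    intro j h2
    have h1 : n * ‖D n c j‖ = ups n c j * ‖orb n c c j‖ := by
      unfold ups
      have := (hz0 j).ne'
      field_simp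
    rw [h1]
    have h3 := (hz0 j).le
    have h4 : 0 ≤ ups n c j := ups_nonneg n c j
    calc ups n c j * ‖orb n c c j‖ * ‖t - c‖ ≤ ups n c w * ‖orb n c c j‖ * r := by gcongr
      _ = (16 * (C₁ + 9) + 65) * (1 + Real.log A) * ‖orb n c c j‖ := by
          rw [hr]
          field_simp
  exact ⟨t, hth, key v hwv, fun j hj => key j (hw1 j hj)⟩

end Pool.Agent.TH363.QI
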