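import Mathlib
import Pool.Prelude.Def_F_c31e40fa
import Pool.Agent.TH363.QI.Main

/-!
# Consequences for parameters with large derivatives
-/

set_option autoImplicit false
open Set Filter Topology Metric Finset

namespace Pool.Agent.TH363.QI

open Pool.Agent.W746.LD

theorem D_eq {n : ℕ} (hn : 2 ≤ n) {c : ℂ} (h : ∀ i, orb n c c i ≠ 0) (j : ℕ) :
    D n c j = P n c c j * S n c c (j + 1) := by
  induction j with
  | zero => rw [D_zero, P_zero, S_one, mul_one]
  | succ j ih =>
    have h1 : P n c c (j + 1) ≠ 0 := P_ne_zero hn fun i _ => h i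
    rw [D_succ, ih, S_succ c (j + 1), mul_add, mul_inv_cancel₀ h1, P_succ]
    ring

theorem S_sub_one (n : ℕ) (c : ℂ) (j : ℕ) :
    ‖S n c c (j + 1) - 1‖ ≤ ∑ i ∈ range j, 1 / ‖P n c c (i + 1)‖ := by
  unfold S
  rw [sum_range_succ', P_zero, inv_one, add_sub_cancel_right]
  refine (norm_sum_le _ _).trans (le_of_eq ?_)
  apply sum_congr rfl
  intro i _
  rw [norm_inv, one_div]

/-- The case in which the sums of the inverse derivatives are close to `1`. -/
theorem dist_theta : ∃ C : ℝ, 0 < C ∧ ∀ n : ℕ, 2 ≤ n → ∀ c ∈ N62a1eb23.multibrotSet n,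
    ∀ θ : ℝ, 0 ≤ θ → θ < 1 → ∀ B : ℝ, 1 ≤ B → ∀ k : ℕ,
    ((∀ i, orb n c c i ≠ 0) → ∀ j ≤ k, ‖S n c c (j + 1) - 1‖ ≤ θ ∧
      ∃ i ≤ j, ∑ m ∈ range (j + 1), rho n c m ≤ B * rho n c i) →
      ∃ c', (∃ m z, N62a1eb23.IsAttractingCycle (fun z => z ^ n + c') m z) ∧
        ∀ j ≤ k, n * ‖P n c c j‖ * ‖c' - c‖ ≤
          C / (1 - θ) * (1 + Real.log (1 / (1 - θ)) + Real.log B) * ‖orb n c c j‖ := by
  obtain ⟨C, hC, H⟩ := dist_le
  refine ⟨2 * C, by linarith, ?_⟩
  intro n hn c hcM θ hθ0 hθ1 B hB k hyp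
  have hn0 : (0 : ℝ) < n := by
    have : 0 < n := by omega
    exact_mod_cast this
  have h1θ : 0 < 1 - θ := by linarith
  have hlogB : 0 ≤ Real.log B := Real.log_nonneg hB
  have hlogθ : 0 ≤ Real.log (1 / (1 - θ)) := by
    apply Real.log_nonneg
    rw [le_div_iff₀ h1θ]
    linarith
  by_cases hhyp : ∃ m z, N62a1eb23.IsAttractingCycle (fun z => z ^ n + c) m z
  · refine ⟨c, hhyp, ?_⟩
    intro j _
    rw [sub_self, norm_zero, mul_zero]
    positivity
  have hz : ∀ i, orb n c c i ≠ 0 := by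
    intro i
    rw [← P_eq_orb hn]
    exact Pool.Agent.H713R2.AR.P_ne_zero hn hhyp (by omega)
  have hyp := hyp hz
  have hz0 : ∀ i, 0 < ‖orb n c c i‖ := fun i => norm_pos_iff.mpr (hz i)
  have hS : ∀ j ≤ k, 1 - θ ≤ ‖S n c c (j + 1)‖ ∧ ‖S n c c (j + 1)‖ ≤ 2 := by
    intro j hj
    have h1 := (hyp j hj).1
    constructor
    · have h2 := norm_sub_norm_le (1 : ℂ) (1 - S n c c (j + 1))
      rw [norm_one, sub_sub_cancel, norm_sub_rev] at h2
      linarith
    · have h2 := norm_add_le (S n c c (j + 1) - 1) 1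
      rw [norm_one, sub_add_cancel] at h2
      linarith
  have hDP : ∀ j, ‖D n c j‖ = ‖P n c c j‖ * ‖S n c c (j + 1)‖ := fun j => by
    rw [D_eq hn hz, norm_mul]
  have hu1 : ∀ j, ups n c j = rho n c j * ‖S n c c (j + 1)‖ := by
    intro j
    unfold ups rho
    rw [hDP]
    ring
  have hρ : ∀ i, 0 < rho n c i := fun i => rho_pos hn fun m _ => hz m
  obtain ⟨c', hc', -, h1⟩ := H n hn c hcM (2 * B / (1 - θ)) (by
      rw [le_div_iff₀ h1θ]; linarith) k (by
      intro _ j hj
      obtain ⟨i, hi, h2⟩ := (hyp j hj).2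
      have hρi := hρ i
      refine ⟨⟨i, hi, ?_⟩, ⟨i, hi, ?_⟩⟩
      · calc ∑ m ∈ range (j + 1), ups n c m ≤ ∑ m ∈ range (j + 1), rho n c m * 2 := by
              apply sum_le_sum
              intro m hm
              rw [Finset.mem_range] at hm
              rw [hu1]
              exact mul_le_mul_of_nonneg_left (hS m (by omega)).2 (hρ m).le
          _ = (∑ m ∈ range (j + 1), rho n c m) * 2 := by rw [sum_mul]
          _ ≤ (B * rho n c i) * 2 := by gcongr
          _ = (2 * B) * rho n c i := by ring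
          _ ≤ 2 * B / (1 - θ) * rho n c i := by
              have h3 : 2 * B ≤ 2 * B / (1 - θ) := by
                rw [le_div_iff₀ h1θ]
                nlinarith
              gcongr
      · refine h2.trans ?_
        rw [hu1, div_mul_eq_mul_div, le_div_iff₀ h1θ]
        have h3 := (hS i (by omega)).1
        calc B * rho n c i * (1 - θ) ≤ B * rho n c i * ‖S n c c (i + 1)‖ := by gcongr
          _ ≤ 2 * (B * rho n c i * ‖S n c c (i + 1)‖) := by
              have : 0 ≤ B * rho n c i * ‖S n c c (i + 1)‖ := by positivity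
              linarith
          _ = _ := by ring) 0 (Or.inl ⟨0, Nat.zero_le _, le_rfl⟩)
  refine ⟨c', hc', ?_⟩
  intro j hj
  have h2 := h1 j hj
  have hlog : Real.log (2 * B / (1 - θ)) ≤ 1 + Real.log B + Real.log (1 / (1 - θ)) := by
    have e : 2 * B / (1 - θ) = 2 * B * (1 / (1 - θ)) := by ring
    rw [e, Real.log_mul (by positivity) (by positivity), Real.log_mul (by norm_num) (by positivity)]
    have := Real.log_two_lt_d9
    linarith
  have h3 : n * ‖D n c j‖ * ‖c' - c‖ ≤
      2 * C * (1 + Real.log (1 / (1 - θ)) + Real.log B) * ‖orb n c c j‖ := by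
    refine h2.trans ?_
    have : C * (1 + Real.log (2 * B / (1 - θ))) ≤
        2 * C * (1 + Real.log (1 / (1 - θ)) + Real.log B) := by nlinarith
    gcongr
  rw [hDP] at h3
  have h4 := (hS j hj).1
  rw [div_mul_eq_mul_div, div_mul_eq_mul_div, le_div_iff₀ h1θ]
  refine le_trans ?_ h3
  calc n * ‖P n c c j‖ * ‖c' - c‖ * (1 - θ) ≤ n * ‖P n c c j‖ * ‖c' - c‖ * ‖S n c c (j + 1)‖ := by
        gcongr
    _ = _ := by ring

theorem sum_le_card (n : ℕ) (c : ℂ) (j : ℕ) :
    ∃ i ≤ j, ∑ m ∈ range (j + 1), rho n c m ≤ ((j : ℝ) + 1) * rho n c i := by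
  obtain ⟨i, hi, hmax⟩ := exists_max_image (range (j + 1)) (rho n c) ⟨0, by simp⟩
  rw [Finset.mem_range] at hi
  refine ⟨i, by omega, ?_⟩
  calc ∑ m ∈ range (j + 1), rho n c m ≤ ∑ m ∈ range (j + 1), rho n c i := sum_le_sum hmax
    _ = ((j : ℝ) + 1) * rho n c i := by
        rw [sum_const, Finset.card_range, nsmul_eq_mul]
        push_cast
        ring

/-- The case of a small sum of inverse derivatives. -/
theorem dist_summable {θ : ℝ} (hθ : θ < 1) : ∃ C : ℝ, 0 < C ∧ ∀ n : ℕ, 2 ≤ n →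
    ∀ c ∈ N62a1eb23.multibrotSet n, ∀ k : ℕ, ∑ i ∈ range k, 1 / ‖P n c c (i + 1)‖ ≤ θ →
      ∃ c', (∃ m z, N62a1eb23.IsAttractingCycle (fun z => z ^ n + c') m z) ∧
        ∀ j ≤ k, n * ‖P n c c j‖ * ‖c' - c‖ ≤ C * (1 + Real.log (k + 1)) * ‖orb n c c j‖ := by
  obtain ⟨C, hC, H⟩ := dist_theta
  set θ' : ℝ := max θ 0 with hθ'
  have hθ0 : 0 ≤ θ' := le_max_right _ _
  have hθ1 : θ' < 1 := max_lt hθ one_pos
  have h1θ : 0 < 1 - θ' := by linarith
  have hlogθ : 0 ≤ Real.log (1 / (1 - θ')) := by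
    apply Real.log_nonneg
    rw [le_div_iff₀ h1θ]
    linarith
  refine ⟨C / (1 - θ') * (1 + Real.log (1 / (1 - θ'))), by positivity, ?_⟩
  intro n hn c hcM k hsum
  have hk : (1 : ℝ) ≤ k + 1 := by
    have : (0 : ℝ) ≤ k := Nat.cast_nonneg k
    linarith
  have hlogk : 0 ≤ Real.log (k + 1) := Real.log_nonneg hk
  obtain ⟨c', hc', h1⟩ := H n hn c hcM θ' hθ0 hθ1 (k + 1) hk k (by
    intro hz j hj
    have hρ : ∀ i, 0 < rho n c i := fun i => rho_pos hn fun m _ => hz m
    constructor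
    · refine (S_sub_one n c j).trans (le_trans ?_ (hsum.trans (le_max_left _ _)))
      exact sum_le_sum_of_subset_of_nonneg (range_subset_range.mpr hj)
        (fun i _ _ => by positivity)
    · obtain ⟨i, hi, h2⟩ := sum_le_card n c j
      refine ⟨i, hi, h2.trans ?_⟩
      have hjk : (j : ℝ) ≤ k := by exact_mod_cast hj
      have := (hρ i).le
      gcongr)
  refine ⟨c', hc', ?_⟩
  intro j hj
  refine (h1 j hj).trans ?_
  have h2 : 1 + Real.log (1 / (1 - θ')) + Real.log (k + 1) ≤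
      (1 + Real.log (1 / (1 - θ'))) * (1 + Real.log (k + 1)) := by nlinarith
  have h3 : C / (1 - θ') * (1 + Real.log (1 / (1 - θ')) + Real.log (k + 1)) ≤
      C / (1 - θ') * (1 + Real.log (1 / (1 - θ'))) * (1 + Real.log (k + 1)) := by
    rw [mul_assoc (C / (1 - θ'))]
    gcongr
  gcongr

theorem two_mul_le_pow {n : ℕ} (hn : 1 ≤ n) : 2 * (n : ℝ) ≤ 2 ^ n := by
  induction n with
  | zero => omega
  | succ n ih =>
    rcases Nat.eq_zero_or_pos n with rfl | h
    · norm_num
    · have h1 := ih h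
      have h2 : (1 : ℝ) ≤ n := by exact_mod_cast h
      rw [pow_succ]
      push_cast
      linarith

/-- The growth of the rates along an expanding orbit. -/
theorem rho_growth {n : ℕ} (hn : 2 ≤ n) {y w lam : ℝ} (hy : 0 ≤ y) (_hw : 0 ≤ w)
    (hlam : 2 < lam) (h1 : lam ≤ n * y ^ (n - 1)) (h2 : w ^ (n - 1) ≤ 2) :
    lam / 2 * w ≤ n * y ^ n := by
  have hn0 : (0 : ℝ) < n := by
    have : 0 < n := by omega
    exact_mod_cast this
  obtain ⟨m, rfl⟩ : ∃ m, n = m + 1 := ⟨n - 1, by omega⟩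
  rw [Nat.add_sub_cancel] at h1 h2
  have hm : m ≠ 0 := by omega
  set N : ℝ := ((m + 1 : ℕ) : ℝ) with hN
  have h3 : (lam / 2 * w) ^ m ≤ (N * y ^ (m + 1)) ^ m := by
    have h4 : (lam / 2 * w) ^ m ≤ (lam / 2) ^ m * 2 := by
      rw [mul_pow]
      gcongr
    have h5 : lam ^ (m + 1) ≤ N * (N * y ^ (m + 1)) ^ m := by
      calc lam ^ (m + 1) ≤ (N * y ^ m) ^ (m + 1) := by gcongr
        _ = N * (N * y ^ (m + 1)) ^ m := by
            rw [mul_pow, mul_pow, ← pow_mul, ← pow_mul, mul_comm m (m + 1), pow_succ N m]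
            ring
    have h6 : N * ((lam / 2) ^ m * 2) ≤ lam ^ (m + 1) := by
      have h7 := two_mul_le_pow (n := m + 1) (by omega)
      rw [← hN] at h7
      have h8 : lam ^ m = (lam / 2) ^ m * 2 ^ m := by rw [← mul_pow]; ring
      have h9 : N ≤ 2 ^ m := by
        rw [pow_succ] at h7
        linarith
      calc N * ((lam / 2) ^ m * 2) = N * (lam / 2) ^ m * 2 := by ring
        _ ≤ 2 ^ m * (lam / 2) ^ m * lam := by gcongr
        _ = lam ^ (m + 1) := by rw [pow_succ, h8]; ring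
    have h7 : N * (lam / 2 * w) ^ m ≤ N * (N * y ^ (m + 1)) ^ m := by
      calc N * (lam / 2 * w) ^ m ≤ N * ((lam / 2) ^ m * 2) := by gcongr
        _ ≤ _ := h6.trans h5
    exact le_of_mul_le_mul_left h7 hn0
  exact le_of_pow_le_pow_left₀ hm (by positivity) h3

/-- The case of an expanding orbit. -/
theorem dist_expanding {lam : ℝ} (hlam : 2 < lam) : ∃ C : ℝ, 0 < C ∧ ∀ n : ℕ, 2 ≤ n →
    ∀ c ∈ N62a1eb23.multibrotSet n, ∀ k : ℕ, (∀ j < k, lam ≤ n * ‖orb n c c j‖ ^ (n - 1)) →
      ∃ c', (∃ m z, N62a1eb23.IsAttractingCycle (fun z => z ^ n + c') m z) ∧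
        ∀ j ≤ k, n * ‖P n c c j‖ * ‖c' - c‖ ≤ C * ‖orb n c c j‖ := by
  obtain ⟨C, hC, H⟩ := dist_theta
  set θ : ℝ := 1 / (lam - 1) with hθ
  have hθ0 : 0 ≤ θ := by
    rw [hθ]
    apply div_nonneg zero_le_one
    linarith
  have hθ1 : θ < 1 := by
    rw [hθ, div_lt_one (by linarith)]
    linarith
  have h1θ : 0 < 1 - θ := by linarith
  have hlogθ : 0 ≤ Real.log (1 / (1 - θ)) := by
    apply Real.log_nonneg
    rw [le_div_iff₀ h1θ]
    linarith
  set B : ℝ := lam / (lam - 2) with hB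
  have hl2 : 0 < lam - 2 := by linarith
  have hB1 : 1 ≤ B := by
    rw [hB, le_div_iff₀ hl2]
    linarith
  have hlogB : 0 ≤ Real.log B := Real.log_nonneg hB1
  refine ⟨C / (1 - θ) * (1 + Real.log (1 / (1 - θ)) + Real.log B), by positivity, ?_⟩
  intro n hn c hcM k hexp
  have hn0 : (0 : ℝ) < n := by
    have : 0 < n := by omega
    exact_mod_cast this
  refine H n hn c hcM θ hθ0 hθ1 B hB1 k ?_
  intro hz j hj
  have hρ : ∀ i, 0 < rho n c i := fun i => rho_pos hn fun m _ => hz m
  have hlam0 : 0 < lam := by linarith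
  -- the derivatives
  have hP : ∀ i ≤ k, lam ^ i ≤ ‖P n c c i‖ := by
    intro i
    induction i with
    | zero => intro _; simp
    | succ i ih =>
      intro hi
      have h1 := ih (by omega)
      have h2 := hexp i (by omega)
      rw [norm_P_succ, pow_succ]
      gcongr
  constructor
  · refine (S_sub_one n c j).trans ?_
    have h1 : ∀ i < j, 1 / ‖P n c c (i + 1)‖ ≤ (1 / lam) ^ (i + 1) := by
      intro i hi
      rw [one_div_pow]
      apply one_div_le_one_div_of_le (by positivity)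
      exact hP (i + 1) (by omega)
    have h2 : ∀ j : ℕ, ∑ i ∈ range j, (1 / lam) ^ (i + 1) ≤ 1 / (lam - 1) * (1 - (1 / lam) ^ j) := by
      intro j
      induction j with
      | zero => simp
      | succ j ih =>
        rw [sum_range_succ]
        refine (add_le_add_left ih _).trans (le_of_eq ?_)
        have h3 : lam - 1 ≠ 0 := by linarith
        rw [pow_succ]
        field_simp
        ring
    calc ∑ i ∈ range j, 1 / ‖P n c c (i + 1)‖ ≤ ∑ i ∈ range j, (1 / lam) ^ (i + 1) := by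
          apply sum_le_sum
          intro i hi
          rw [Finset.mem_range] at hi
          exact h1 i hi
      _ ≤ 1 / (lam - 1) * (1 - (1 / lam) ^ j) := h2 j
      _ ≤ 1 / (lam - 1) * 1 := by
          have h3 : 0 ≤ (1 / lam) ^ j := by positivity
          have h4 : 0 ≤ 1 / (lam - 1) := by rw [← hθ]; exact hθ0
          gcongr
          linarith
      _ = θ := by rw [mul_one]
  · refine ⟨j, le_rfl, ?_⟩
    -- the growth
    have hgr : ∀ i < k, lam / 2 * rho n c i ≤ rho n c (i + 1) := by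
      intro i hi
      have h1 := rho_succ hn (hz i) (hz (i + 1))
      have hzi : 0 < ‖orb n c c (i + 1)‖ := norm_pos_iff.mpr (hz (i + 1))
      have h2 := rho_growth hn (norm_nonneg (orb n c c i)) (norm_nonneg (orb n c c (i + 1))) hlam
        (hexp i hi) (orbit_bound hn (fun k => mem_multibrot_orb hn hcM k) (i + 1))
      have h3 : lam / 2 * rho n c i * ‖orb n c c (i + 1)‖ ≤ rho n c (i + 1) * ‖orb n c c (i + 1)‖ := by
        rw [h1]
        calc lam / 2 * rho n c i * ‖orb n c c (i + 1)‖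
            = rho n c i * (lam / 2 * ‖orb n c c (i + 1)‖) := by ring
          _ ≤ rho n c i * (n * ‖orb n c c i‖ ^ n) :=
              mul_le_mul_of_nonneg_left h2 (hρ i).le
      exact le_of_mul_le_mul_right h3 hzi
    have hall : ∀ j ≤ k, ∑ m ∈ range (j + 1), rho n c m ≤ B * rho n c j := by
      intro j
      induction j with
      | zero =>
        intro _
        rw [zero_add, sum_range_one]
        have := (hρ 0).le
        nlinarith
      | succ j ih =>
        intro hj
        have h1 := ih (by omega)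
        have h2 := hgr j (by omega)
        rw [sum_range_succ]
        have h3 : B * rho n c j ≤ (B - 1) * rho n c (j + 1) := by
          have h4 : B * rho n c j = (B - 1) * (lam / 2 * rho n c j) := by
            rw [hB]
            field_simp
            ring
          rw [h4]
          have : 0 ≤ B - 1 := by linarith
          gcongr
        linarith
    exact hall j hj

end Pool.Agent.TH363.QI
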