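import Mathlib
import Pool.Prelude.Def_F_c31e40fa
import Pool.Agent.TH363.QI.Cor

/-!
# The bound at a fixed order, without hypotheses on the orbit
-/

set_option autoImplicit false
open Set Filter Topology Metric Finset

namespace Pool.Agent.TH363.QI

open Pool.Agent.W746.LD

/-- What is used about the parameters without attracting cycles. -/
structure NH (n : ℕ) (c : ℂ) : Prop where
  hn : 2 ≤ n
  b2 : ∀ i, ‖orb n c c i‖ ≤ 2
  bn : ∀ i, ‖orb n c c i‖ ^ (n - 1) ≤ 2
  z : ∀ i, orb n c c i ≠ 0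
  crit : ∀ i, 1 / 20 ≤ ‖orb n c c i‖ ^ n * ∑ m ∈ range (i + 1), rho n c m

theorem NH.mk' {n : ℕ} (hn : 2 ≤ n) {c : ℂ} (hcM : c ∈ N62a1eb23.multibrotSet n)
    (h : ¬ ∃ m z, N62a1eb23.IsAttractingCycle (fun z => z ^ n + c) m z) : NH n c := by
  have hz : ∀ i, orb n c c i ≠ 0 := by
    intro i
    rw [← P_eq_orb hn]
    exact Pool.Agent.H713R2.AR.P_ne_zero hn h (by omega)
  refine ⟨hn, fun i => mem_multibrot_orb hn hcM i,
    fun i => orbit_bound hn (fun k => mem_multibrot_orb hn hcM k) i, hz, ?_⟩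
  intro i
  by_contra hcon
  push Not at hcon
  exact h (attracting hn (fun m _ => hz m) hcon)

variable {n : ℕ} {c : ℂ}

theorem NH.n0 (s : NH n c) : (0 : ℝ) < n := by
  have := s.hn
  have : 0 < n := by omega
  exact_mod_cast this

theorem NH.n1 (s : NH n c) : (1 : ℝ) ≤ n := by
  have := s.hn
  have : 1 ≤ n := by omega
  exact_mod_cast this

theorem NH.z0 (s : NH n c) (i : ℕ) : 0 < ‖orb n c c i‖ := norm_pos_iff.mpr (s.z i)

theorem NH.rho (s : NH n c) (i : ℕ) : 0 < rho n c i := rho_pos s.hn fun m _ => s.z m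

theorem NH.P0 (s : NH n c) (i : ℕ) : 0 < ‖P n c c i‖ :=
  norm_pos_iff.mpr (P_ne_zero s.hn fun m _ => s.z m)

theorem NH.Pup (s : NH n c) (i : ℕ) : ‖P n c c i‖ ≤ (2 * n) ^ i := by
  have := s.n0
  induction i with
  | zero => simp
  | succ i ih =>
    rw [norm_P_succ, pow_succ]
    have h1 := s.bn i
    calc ‖P n c c i‖ * (n * ‖orb n c c i‖ ^ (n - 1)) ≤ (2 * n) ^ i * (n * 2) := by gcongr
      _ = _ := by ring

theorem pow_split {n : ℕ} (hn : 2 ≤ n) (x : ℝ) : x ^ n = x ^ (n - 1) * x := by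
  rw [← pow_succ, Nat.sub_add_cancel (by omega)]

theorem nat_le_two_pow {n : ℕ} (hn : 2 ≤ n) : (n : ℝ) ≤ 2 ^ (n - 1) := by
  have h := two_mul_le_pow (n := n) (by omega)
  rw [pow_split hn] at h
  linarith

/-- A uniform lower bound for the orbit. -/
theorem orb_lower (k : ℕ) : ∃ η : ℝ, 0 < η ∧ ∀ (n : ℕ) (c : ℂ), NH n c → ∀ l < k,
    η ≤ ‖orb n c c l‖ := by
  induction k with
  | zero => exact ⟨1, one_pos, fun _ _ _ l hl => by omega⟩
  | succ k ih =>
    obtain ⟨η, hη, h⟩ := ih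
    set K : ℝ := 20 * 2 ^ k * (1 + 2 * k / η) with hK
    have hkη : 0 ≤ 2 * (k : ℝ) / η := by positivity
    have hK1 : 1 ≤ K := by
      have h1 : (1 : ℝ) ≤ 2 ^ k := one_le_pow₀ (by norm_num)
      rw [hK]
      nlinarith
    refine ⟨min η (1 / (2 ^ (k + 1) * K)), by positivity, ?_⟩
    intro n c s l hl
    rcases Nat.lt_succ_iff_lt_or_eq.mp hl with hlt | rfl
    · exact (min_le_left _ _).trans (h n c s l hlt)
    refine (min_le_right _ _).trans ?_
    have hn := s.hn
    have hn0 := s.n0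
    have hn1 := s.n1
    set x : ℝ := ‖orb n c c l‖ with hx
    have hx0 : 0 < x := s.z0 l
    have hcrit := s.crit l
    rw [sum_range_succ, mul_add, ← hx] at hcrit
    have hxn : x ^ n ≤ x ^ (n - 1) * 2 := by
      rw [pow_split hn]
      have := s.b2 l
      gcongr
    have hlast : x ^ n * Pool.Agent.TH363.QI.rho n c l ≤ x ^ (n - 1) * (n * (2 * n) ^ l) := by
      unfold Pool.Agent.TH363.QI.rho
      rw [← hx, pow_split hn]
      have h1 := s.Pup l
      calc x ^ (n - 1) * x * (n * ‖P n c c l‖ / x) = x ^ (n - 1) * (n * ‖P n c c l‖) := by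
            field_simp
        _ ≤ _ := by gcongr
    have hsum : ∑ m ∈ range l, Pool.Agent.TH363.QI.rho n c m ≤ l * (n * (2 * n) ^ l / η) := by
      calc ∑ m ∈ range l, Pool.Agent.TH363.QI.rho n c m ≤ ∑ m ∈ range l, (n * (2 * n) ^ l / η) := by
            apply sum_le_sum
            intro m hm
            rw [Finset.mem_range] at hm
            unfold Pool.Agent.TH363.QI.rho
            have h1 := s.Pup m
            have h2 := h n c s m hm
            have h3 : (2 * (n : ℝ)) ^ m ≤ (2 * n) ^ l := pow_le_pow_right₀ (by linarith) hm.le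
            have h4 : ‖P n c c m‖ ≤ (2 * n) ^ l := h1.trans h3
            gcongr
        _ = _ := by rw [sum_const, Finset.card_range, nsmul_eq_mul]
    have hfirst : x ^ n * ∑ m ∈ range l, Pool.Agent.TH363.QI.rho n c m ≤
        x ^ (n - 1) * 2 * (l * (n * (2 * n) ^ l / η)) := by
      have : 0 ≤ ∑ m ∈ range l, Pool.Agent.TH363.QI.rho n c m := sum_nonneg fun m _ => (s.rho m).le
      gcongr
    have htot : 1 ≤ x ^ (n - 1) * ((2 ^ (l + 1)) ^ (n - 1) * K) := by
      have h1 : (n : ℝ) * (2 * n) ^ l ≤ 2 ^ l * (2 ^ (l + 1)) ^ (n - 1) := by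
        have h2 : (n : ℝ) ^ (l + 1) ≤ (2 ^ (n - 1)) ^ (l + 1) := by
          have := nat_le_two_pow hn
          gcongr
        calc (n : ℝ) * (2 * n) ^ l = 2 ^ l * n ^ (l + 1) := by rw [mul_pow]; ring
          _ ≤ 2 ^ l * (2 ^ (n - 1)) ^ (l + 1) := by gcongr
          _ = 2 ^ l * (2 ^ (l + 1)) ^ (n - 1) := by rw [← pow_mul, ← pow_mul, mul_comm (n - 1)]
      calc (1 : ℝ) ≤ 20 * (x ^ (n - 1) * 2 * (l * (n * (2 * n) ^ l / η)) +
            x ^ (n - 1) * (n * (2 * n) ^ l)) := by linarith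
        _ = x ^ (n - 1) * (20 * (1 + 2 * l / η) * (n * (2 * n) ^ l)) := by ring
        _ ≤ x ^ (n - 1) * (20 * (1 + 2 * l / η) * (2 ^ l * (2 ^ (l + 1)) ^ (n - 1))) := by gcongr
        _ = _ := by rw [hK]; ring
    have hKn : K ≤ K ^ (n - 1) := by
      calc K = K ^ 1 := (pow_one K).symm
        _ ≤ K ^ (n - 1) := pow_le_pow_right₀ hK1 (by omega)
    have hfin : 1 ≤ (x * (2 ^ (l + 1) * K)) ^ (n - 1) := by
      rw [mul_pow, mul_pow]
      refine htot.trans ?_
      gcongr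
    have hfin' : 1 ≤ x * (2 ^ (l + 1) * K) := by
      by_contra hcon
      push Not at hcon
      have := pow_lt_one₀ (n := n - 1) (by positivity) hcon (by omega)
      linarith
    rw [div_le_iff₀ (by positivity)]
    exact hfin'

/-! ## Following the beginning of the orbit -/

theorem norm_prod_ge {ι : Type*} (t : Finset ι) (w : ι → ℂ) (m : ℕ)
    (h : ∑ i ∈ t, m * ‖w i‖ ≤ 1) : 1 - ∑ i ∈ t, m * ‖w i‖ ≤ ‖∏ i ∈ t, (1 + w i) ^ m‖ := by
  classical
  induction t using Finset.induction_on with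
  | empty => simp
  | insert a t ha ih =>
    rw [sum_insert ha] at h ⊢
    rw [prod_insert ha, norm_mul]
    have h0 : 0 ≤ m * ‖w a‖ := by positivity
    have h0' : 0 ≤ ∑ i ∈ t, m * ‖w i‖ := sum_nonneg fun i _ => by positivity
    have h1 := ih (by linarith)
    have h2 : 1 - m * ‖w a‖ ≤ ‖(1 + w a) ^ m‖ := by
      rw [norm_pow]
      rcases Nat.eq_zero_or_pos m with rfl | hm
      · simp
      have hm1 : (1 : ℝ) ≤ m := by exact_mod_cast hm
      have hwa : ‖w a‖ ≤ 1 := by nlinarith [norm_nonneg (w a)]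
      have h3 := one_add_mul_le_pow (a := -‖w a‖) (by linarith) m
      have h4 : 1 + -‖w a‖ ≤ ‖1 + w a‖ := by
        have := norm_sub_norm_le (1 : ℂ) (-w a)
        rw [norm_one, norm_neg, sub_neg_eq_add] at this
        linarith
      calc 1 - m * ‖w a‖ = 1 + m * -‖w a‖ := by ring
        _ ≤ (1 + -‖w a‖) ^ m := h3
        _ ≤ ‖1 + w a‖ ^ m := pow_le_pow_left₀ (by linarith) h4 m
    have h5 : (1 - m * ‖w a‖) * (1 - ∑ i ∈ t, m * ‖w i‖) ≤
        ‖(1 + w a) ^ m‖ * ‖∏ i ∈ t, (1 + w i) ^ m‖ := by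
      apply mul_le_mul h2 h1 (by linarith) (norm_nonneg _)
    nlinarith [mul_nonneg h0 h0']

theorem NH.P_shift (s : NH n c) (b m : ℕ) : P n c c (b + m) =
    P n c c b * (P n c c m * ∏ i ∈ range m, (1 + W n c b i) ^ (n - 1)) := by
  rw [P_add]
  congr 1
  unfold P
  rw [← prod_mul_distrib]
  apply prod_congr rfl
  intro i _
  rw [orb_eq (x := orb n c c b) (s.z i), mul_pow]
  unfold W
  ring

theorem NH.lower (s : NH n c) {b m : ℕ}
    (hg : ‖orb n c c b - c‖ * ∑ l ∈ range m, Pool.Agent.TH363.QI.rho n c l ≤ 1 / 8) :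
    1 / 2 * (‖P n c c b‖ * ‖P n c c m‖) ≤ ‖P n c c (b + m)‖ := by
  have h1 := dsp_growth s.hn (c := c) (j := m) (fun i _ => s.z i) (orb n c c b) hg
  have h2 : ∑ l ∈ range m, ((n - 1 : ℕ) : ℝ) * ‖W n c b l‖ ≤ 1 / 2 := by
    calc ∑ l ∈ range m, ((n - 1 : ℕ) : ℝ) * ‖W n c b l‖
        ≤ ∑ l ∈ range m, ‖orb n c c b - c‖ * Pool.Agent.TH363.QI.rho n c l * (3 / 2) := by
          apply sum_le_sum
          intro l hl
          rw [Finset.mem_range] at hl
          refine le_trans ?_ (h1 l hl.le).2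
          unfold W
          gcongr
          omega
      _ = (‖orb n c c b - c‖ * ∑ l ∈ range m, Pool.Agent.TH363.QI.rho n c l) * (3 / 2) := by
          rw [← sum_mul, ← mul_sum]
      _ ≤ 1 / 2 := by linarith
  have h3 := norm_prod_ge (range m) (fun l => W n c b l) (n - 1) (by linarith)
  rw [s.P_shift, norm_mul, norm_mul]
  have h4 : 0 ≤ ‖P n c c b‖ * ‖P n c c m‖ := by positivity
  have h5 : 1 / 2 ≤ ‖∏ i ∈ range m, (1 + W n c b i) ^ (n - 1)‖ := by linarith
  calc 1 / 2 * (‖P n c c b‖ * ‖P n c c m‖) = (‖P n c c b‖ * ‖P n c c m‖) * (1 / 2) := by ring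
    _ ≤ (‖P n c c b‖ * ‖P n c c m‖) * ‖∏ i ∈ range m, (1 + W n c b i) ^ (n - 1)‖ := by gcongr
    _ = _ := by ring

theorem NH.upper (s : NH n c) (b m : ℕ) :
    ‖P n c c (b + m)‖ ≤ ‖P n c c b‖ * ‖P n c c m‖ *
      Real.exp (∑ l ∈ range m, n * ‖W n c b l‖) := by
  have h3 := one_add_norm_prod_le (range m) (fun l => W n c b l) (n - 1)
  rw [s.P_shift, norm_mul, norm_mul, ← mul_assoc]
  have h4 : ∑ l ∈ range m, ((n - 1 : ℕ) : ℝ) * ‖W n c b l‖ ≤ ∑ l ∈ range m, n * ‖W n c b l‖ := by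
    apply sum_le_sum
    intro l _
    gcongr
    omega
  have h5 := h3.trans (Real.exp_le_exp.mpr h4)
  gcongr

theorem NH.W_upper (s : NH n c) (b m : ℕ) :
    n * ‖W n c b m‖ ≤ ‖orb n c c b - c‖ * Pool.Agent.TH363.QI.rho n c m *
      Real.exp (∑ l ∈ range m, n * ‖W n c b l‖) := by
  induction m with
  | zero =>
    have hc : orb n c c 0 ≠ 0 := s.z 0
    rw [orb_zero] at hc
    have hcn : ‖c‖ ≠ 0 := norm_ne_zero_iff.mpr hc
    have : W n c b 0 = (orb n c c b - c) / c := by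
      unfold W dsp
      rw [orb_zero, orb_zero]
      field_simp
    rw [this, norm_div]
    unfold Pool.Agent.TH363.QI.rho
    rw [orb_zero, P_zero, norm_one]
    simp only [Finset.range_zero, Finset.sum_empty, Real.exp_zero, mul_one]
    apply le_of_eq
    field_simp
  | succ m ih =>
    have hρm := s.rho m
    have hρm1 := s.rho (m + 1)
    have h1 := dsp_step s.hn (x := orb n c c b) (s.z m) (s.z (m + 1))
    have h2 : ‖(1 + W n c b m) ^ n - 1‖ ≤ n * ‖W n c b m‖ * Real.exp (n * ‖W n c b m‖) := by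
      set a : ℝ := n * ‖W n c b m‖ with ha
      have ha0 : 0 ≤ a := by positivity
      have h3 := pow_rem n (W n c b m)
      have h4 : ‖(1 + W n c b m) ^ n - 1‖ ≤
          ‖(1 + W n c b m) ^ n - 1 - n * W n c b m‖ + ‖(n : ℂ) * W n c b m‖ := by
        have := norm_add_le ((1 + W n c b m) ^ n - 1 - n * W n c b m) ((n : ℂ) * W n c b m)
        rwa [sub_add_cancel] at this
      rw [norm_mul, Complex.norm_natCast, ← ha] at h4
      rw [← ha] at h3
      have h5 := one_add_pow_le n (norm_nonneg (W n c b m))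
      rw [← ha] at h5
      have h6 : Real.exp a * (1 - a) ≤ 1 := by
        have h7 := Real.add_one_le_exp (-a)
        have h8 : Real.exp a * Real.exp (-a) = 1 := by rw [← Real.exp_add]; simp
        have h9 := Real.exp_pos a
        nlinarith
      linarith
    have h3 : Pool.Agent.TH363.QI.rho n c m * (n * ‖W n c b (m + 1)‖) ≤
        Pool.Agent.TH363.QI.rho n c m * (‖orb n c c b - c‖ * Pool.Agent.TH363.QI.rho n c (m + 1) *
          Real.exp (∑ l ∈ range (m + 1), n * ‖W n c b l‖)) := by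
      unfold W at h2 ⊢
      rw [h1, sum_range_succ, Real.exp_add]
      unfold W at ih
      calc Pool.Agent.TH363.QI.rho n c (m + 1) * ‖(1 + dsp n c (orb n c c b) m) ^ n - 1‖
          ≤ Pool.Agent.TH363.QI.rho n c (m + 1) * (n * ‖dsp n c (orb n c c b) m‖ *
            Real.exp (n * ‖dsp n c (orb n c c b) m‖)) := by gcongr
        _ ≤ Pool.Agent.TH363.QI.rho n c (m + 1) * ((‖orb n c c b - c‖ *
            Pool.Agent.TH363.QI.rho n c m *
              Real.exp (∑ l ∈ range m, n * ‖dsp n c (orb n c c b) l‖)) *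
            Real.exp (n * ‖dsp n c (orb n c c b) m‖)) := by gcongr
        _ = _ := by ring
    exact le_of_mul_le_mul_left h3 hρm

end Pool.Agent.TH363.QI
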