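import Mathlib
import Pool.Prelude.Def_F_c31e40fa
import Pool.Agent.TH363.QI.Unc

/-!
# The bound at a fixed order
-/

set_option autoImplicit false
open Set Filter Topology Metric Finset

namespace Pool.Agent.TH363.QI

open Pool.Agent.W746.LD

variable {n : ℕ} {c : ℂ}

/-- The situation at the first time `j` at which the derivative is small. -/
structure First (n : ℕ) (c : ℂ) (k j : ℕ) (L M η : ℝ) : Prop where
  s : NH n c
  hj : 1 ≤ j
  hjk : j ≤ k
  hL : 2 ≤ L
  big : ∀ i, 1 ≤ i → i < j → L ≤ ‖P n c c i‖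
  small : ‖P n c c j‖ < L
  M1 : 1 ≤ M
  le : ∀ i < j, ‖P n c c i‖ ≤ M
  at' : ∃ i < j, ‖P n c c i‖ = M
  η0 : 0 < η
  hη : ∀ l < k, η ≤ ‖orb n c c l‖

theorem g_eq (s : NH n c) (a : ℕ) : ‖orb n c c (a + 1) - c‖ * (n * ‖P n c c a‖) =
    ‖orb n c c a‖ * ‖P n c c (a + 1)‖ := by
  rw [norm_orb_succ_sub, norm_P_succ, pow_split s.hn]
  ring

/-- The step. -/
theorem First.step {k j : ℕ} {L M η : ℝ} (F : First n c k j L M η) {a : ℕ} (ha : a + 1 < j)
    {κ : ℝ} (hκ : 0 < κ) (hPa : κ * M ≤ ‖P n c c a‖) :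
    ∃ a', a < a' ∧ a' < j ∧ κ * (η / (32 * (k + 1))) * M ≤ ‖P n c c a'‖ := by
  have s := F.s
  have hn0 := s.n0
  have hL := F.hL
  set g : ℝ := ‖orb n c c (a + 1) - c‖ with hg
  have hgeq := g_eq s a
  rw [← hg] at hgeq
  have hg0 : 0 ≤ g := norm_nonneg _
  have hPa0 := s.P0 a
  have hPb := F.big (a + 1) (by omega) ha
  set m0 : ℕ := j - (a + 1) with hm0
  have hm0' : 1 ≤ m0 := by omega
  have hex : ∃ i, 1 / 8 < g * ∑ l ∈ range (i + 1), rho n c l := by
    refine ⟨m0 - 1, ?_⟩
    rw [show m0 - 1 + 1 = m0 by omega]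
    by_contra hcon
    push Not at hcon
    have h1 := s.lower (b := a + 1) (m := m0) hcon
    rw [show a + 1 + m0 = j by omega] at h1
    have h2 := F.big m0 hm0' (by omega)
    have h3 := F.small
    have h4 : L * L ≤ ‖P n c c (a + 1)‖ * ‖P n c c m0‖ := by gcongr
    nlinarith
  classical
  obtain ⟨i, hi, himin⟩ : ∃ i, 1 / 8 < g * ∑ l ∈ range (i + 1), rho n c l ∧
      ∀ i' < i, ¬ (1 / 8 < g * ∑ l ∈ range (i' + 1), rho n c l) :=
    ⟨Nat.find hex, Nat.find_spec hex, fun i' hi' => Nat.find_min hex hi'⟩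
  have him : i + 1 ≤ m0 := by
    by_contra hcon
    push Not at hcon
    have h1 := himin (m0 - 1) (by omega)
    rw [show m0 - 1 + 1 = m0 by omega] at h1
    push Not at h1
    have h1 := s.lower (b := a + 1) (m := m0) h1
    rw [show a + 1 + m0 = j by omega] at h1
    have h2 := F.big m0 hm0' (by omega)
    have h3 := F.small
    have h4 : L * L ≤ ‖P n c c (a + 1)‖ * ‖P n c c m0‖ := by gcongr
    nlinarith
  have hi' : g * ∑ l ∈ range i, rho n c l ≤ 1 / 8 := by
    rcases Nat.eq_zero_or_pos i with h0 | h0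
    · rw [h0]; simp
    · have := himin (i - 1) (by omega)
      rw [show i - 1 + 1 = i by omega] at this
      push Not at this
      exact this
  obtain ⟨m, hm, hsum⟩ := sum_le_card n c i
  have hρm := s.rho m
  have hik : (i : ℝ) + 1 ≤ k + 1 := by
    have h1 := F.hjk
    have h2 : i ≤ k := by omega
    have h3 : (i : ℝ) ≤ k := by exact_mod_cast h2
    linarith
  have hk1 : (0 : ℝ) < k + 1 := by positivity
  have hgρ : 1 / (8 * (k + 1)) ≤ g * rho n c m := by
    rw [div_le_iff₀ (by positivity)]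
    have h1 : g * ∑ l ∈ range (i + 1), rho n c l ≤ g * (((i : ℝ) + 1) * rho n c m) := by gcongr
    have h2 : g * (((i : ℝ) + 1) * rho n c m) ≤ g * (((k : ℝ) + 1) * rho n c m) := by gcongr
    nlinarith
  have hlow : 1 / 2 * (‖P n c c (a + 1)‖ * ‖P n c c m‖) ≤ ‖P n c c (a + 1 + m)‖ := by
    apply s.lower
    refine le_trans ?_ hi'
    rw [← hg]
    gcongr
    · intro l hl _
      exact (s.rho l).le
  refine ⟨a + 1 + m, by omega, by omega, le_trans ?_ hlow⟩
  have hza := s.z0 a
  have hza2 := s.b2 a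
  have hzm := s.z0 m
  have hηm : η ≤ ‖orb n c c m‖ := F.hη m (by have := F.hjk; omega)
  have hη0 := F.η0
  have hM1 := F.M1
  -- `g * rho m * |P a| * |z m| = |z a| * |P b| * |P m|`
  have h1 : g * rho n c m * ‖P n c c a‖ * ‖orb n c c m‖ =
      ‖orb n c c a‖ * (‖P n c c (a + 1)‖ * ‖P n c c m‖) := by
    calc g * rho n c m * ‖P n c c a‖ * ‖orb n c c m‖
        = (g * (n * ‖P n c c a‖)) * ‖P n c c m‖ := by
          unfold rho
          field_simp
      _ = _ := by rw [hgeq]; ring
  have h2 : 1 / (8 * (k + 1)) * (κ * M) * η ≤ 2 * (‖P n c c (a + 1)‖ * ‖P n c c m‖) := by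
    calc 1 / (8 * (k + 1)) * (κ * M) * η ≤ g * rho n c m * ‖P n c c a‖ * ‖orb n c c m‖ := by gcongr
      _ = ‖orb n c c a‖ * (‖P n c c (a + 1)‖ * ‖P n c c m‖) := h1
      _ ≤ _ := by gcongr
  have h3 : κ * (η / (32 * (k + 1))) * M = 1 / 4 * (1 / (8 * (k + 1)) * (κ * M) * η) := by
    field_simp
    ring
  rw [h3]
  linarith

/-- The derivative just before the first small one is comparable to the largest one. -/
theorem First.prev {k j : ℕ} {L M η : ℝ} (F : First n c k j L M η) :
    (min 1 (η / (32 * (k + 1)))) ^ k * M ≤ ‖P n c c (j - 1)‖ := by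
  have hη0 := F.η0
  have hM1 := F.M1
  set τ : ℝ := min 1 (η / (32 * (k + 1))) with hτ
  have hτ0 : 0 < τ := by
    rw [hτ]
    positivity
  have hτ1 : τ ≤ 1 := min_le_left _ _
  have key : ∀ r e a : ℕ, a < j → j - 1 - a ≤ r → τ ^ e * M ≤ ‖P n c c a‖ →
      τ ^ (e + r) * M ≤ ‖P n c c (j - 1)‖ := by
    intro r
    induction r with
    | zero =>
      intro e a ha hr h
      have : a = j - 1 := by omega
      rw [← this, add_zero]
      exact h
    | succ r ih =>
      intro e a ha hr h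
      rcases Nat.lt_or_ge (a + 1) j with h1 | h1
      · obtain ⟨a', ha1, ha2, h2⟩ := F.step h1 (κ := τ ^ e) (by positivity) h
        have h3 := ih (e + 1) a' ha2 (by omega) (by
          refine le_trans ?_ h2
          rw [pow_succ]
          gcongr
          exact min_le_right _ _)
        rw [show e + (r + 1) = e + 1 + r by ring]
        exact h3
      · have : a = j - 1 := by omega
        rw [← this]
        refine le_trans ?_ h
        have h2 : τ ^ (e + (r + 1)) ≤ τ ^ e := pow_le_pow_of_le_one hτ0.le hτ1 (by omega)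
        gcongr
  obtain ⟨a, ha, haM⟩ := F.at'
  have h1 := key k 0 a ha (by have := F.hjk; omega) (by rw [pow_zero, one_mul, haM])
  rwa [zero_add] at h1

/-- The auxiliary bounds. -/
noncomputable def Eb (G : ℝ) : ℕ → ℝ
  | 0 => 0
  | (l + 1) => Eb G l + G * Real.exp (Eb G l)

theorem Eb_mono (G : ℝ) (hG : 0 ≤ G) : Monotone (Eb G) := by
  apply monotone_nat_of_le_succ
  intro l
  rw [Eb]
  have := Real.exp_pos (Eb G l)
  nlinarith

/-- The constant that controls the displacement. -/
noncomputable def Gc (k : ℕ) (L η B : ℝ) : ℝ := 2 * L * B / ((min 1 (η / (32 * (k + 1)))) ^ k * η)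

theorem Gc_nonneg (k : ℕ) {L η B : ℝ} (hη0 : 0 < η) (hL : 2 ≤ L) (hB : 1 ≤ B) : 0 ≤ Gc k L η B := by
  unfold Gc
  positivity

/-- The displacement stays bounded after the first small derivative. -/
theorem First.W_bound {k j : ℕ} {L M η : ℝ} (F : First n c k j L M η) {B : ℝ} (hB1 : 1 ≤ B)
    {m : ℕ} (hm : j + m ≤ k) (hB : ∀ t < m, ‖P n c c t‖ ≤ B * M) :
    ∑ i ∈ range m, n * ‖W n c j i‖ ≤ Eb (Gc k L η B) m := by
  have s := F.s
  have hn0 := s.n0
  have hM1 := F.M1
  have hη0 := F.η0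
  have hL := F.hL
  have hj1 := F.hj
  set τ : ℝ := min 1 (η / (32 * (k + 1))) with hτ
  have hτ0 : 0 < τ := by
    rw [hτ]
    positivity
  set G : ℝ := Gc k L η B with hG
  have hG0 : 0 ≤ G := Gc_nonneg k hη0 hL hB1
  have hG' : G = 2 * L * B / (τ ^ k * η) := by rw [hG, Gc]
  set g : ℝ := ‖orb n c c j - c‖ with hg
  have hg0 : 0 ≤ g := norm_nonneg _
  have hgM : g * (n * (τ ^ k * M)) ≤ 2 * L := by
    have h1 := g_eq s (j - 1)
    rw [Nat.sub_add_cancel hj1, ← hg] at h1
    have h2 := F.prev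
    rw [← hτ] at h2
    have h3 := s.b2 (j - 1)
    have h4 := F.small.le
    calc g * (n * (τ ^ k * M)) ≤ g * (n * ‖P n c c (j - 1)‖) := by gcongr
      _ = ‖orb n c c (j - 1)‖ * ‖P n c c j‖ := h1
      _ ≤ 2 * L := by gcongr
  have hgρ : ∀ l < m, g * rho n c l ≤ G := by
    intro l hl
    have h1 := hB l hl
    have h2 := F.hη l (by omega)
    have h3 := s.z0 l
    have h4 : g * rho n c l * (τ ^ k * η * M) ≤ G * (τ ^ k * η * M) := by
      have e1 : G * (τ ^ k * η * M) = 2 * L * (B * M) := by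
        rw [hG']
        field_simp
      rw [e1]
      have e2 : rho n c l * η ≤ n * ‖P n c c l‖ := by
        unfold rho
        rw [div_mul_eq_mul_div, div_le_iff₀ h3]
        gcongr
      calc g * rho n c l * (τ ^ k * η * M) = g * (rho n c l * η) * (τ ^ k * M) := by ring
        _ ≤ g * (n * ‖P n c c l‖) * (τ ^ k * M) := by gcongr
        _ ≤ g * (n * (B * M)) * (τ ^ k * M) := by gcongr
        _ = (g * (n * (τ ^ k * M))) * (B * M) := by ring
        _ ≤ 2 * L * (B * M) := by gcongr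
    exact le_of_mul_le_mul_right h4 (by positivity)
  have hsum : ∀ l ≤ m, ∑ i ∈ range l, n * ‖W n c j i‖ ≤ Eb G l := by
    intro l
    induction l with
    | zero => intro _; simp [Eb]
    | succ l ihl =>
      intro hl
      have h1 := ihl (by omega)
      rw [sum_range_succ, Eb]
      have h2 := s.W_upper j l
      rw [← hg] at h2
      have h3 := hgρ l (by omega)
      have h4 : n * ‖W n c j l‖ ≤ G * Real.exp (Eb G l) := by
        refine h2.trans ?_
        gcongr
      linarith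
  exact hsum m le_rfl

/-- The derivatives do not exceed a multiple of `M` later. -/
theorem growth_bound (k T : ℕ) {L η : ℝ} (hη0 : 0 < η) (hL : 2 ≤ L) : ∃ B : ℝ, 1 ≤ B ∧
    ∀ (n : ℕ) (c : ℂ) (j : ℕ) (M : ℝ), First n c k j L M η → ∀ t ≤ T, t ≤ k →
      ‖P n c c t‖ ≤ B * M := by
  induction T with
  | zero =>
    refine ⟨1, le_rfl, ?_⟩
    intro n c j M F t ht _
    have : t = 0 := by omega
    rw [this, one_mul]
    exact F.le 0 (by have := F.hj; omega)
  | succ T ih =>
    obtain ⟨B, hB1, hB⟩ := ih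
    set G : ℝ := Gc k L η B with hG
    have hG0 : 0 ≤ G := Gc_nonneg k hη0 hL hB1
    have hE0 : 0 ≤ Eb G k := Eb_mono G hG0 (Nat.zero_le k)
    have hexp : 1 ≤ Real.exp (Eb G k) := Real.one_le_exp hE0
    refine ⟨L * B * Real.exp (Eb G k), ?_, ?_⟩
    · have : 1 ≤ L * B := by nlinarith
      nlinarith
    intro n c j M F t ht htk
    have s := F.s
    have hn0 := s.n0
    have hM1 := F.M1
    have hBle : B * M ≤ L * B * Real.exp (Eb G k) * M := by
      have : B ≤ L * B * Real.exp (Eb G k) := by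
        calc B = 1 * B * 1 := by ring
          _ ≤ L * B * Real.exp (Eb G k) := by
            gcongr
            linarith
      gcongr
    rcases Nat.lt_or_ge t (T + 1) with hlt | hge
    · exact (hB n c j M F t (by omega) htk).trans hBle
    have htT : t = T + 1 := by omega
    rcases Nat.lt_or_ge t j with hlt | hge'
    · refine (F.le t hlt).trans (le_trans ?_ hBle)
      nlinarith
    -- `t = j + m`
    obtain ⟨m, rfl⟩ : ∃ m, t = j + m := ⟨t - j, by omega⟩
    have hj1 := F.hj
    have h1 := s.upper j m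
    have h2 := hB n c j M F m (by omega) (by omega)
    have h3 : ∑ l ∈ range m, n * ‖W n c j l‖ ≤ Eb G k :=
      (F.W_bound hB1 htk fun t ht' => hB n c j M F t (by omega) (by omega)).trans
        (Eb_mono G hG0 (by omega))
    have h4 := F.small.le
    calc ‖P n c c (j + m)‖ ≤ ‖P n c c j‖ * ‖P n c c m‖ *
          Real.exp (∑ l ∈ range m, n * ‖W n c j l‖) := h1
      _ ≤ L * (B * M) * Real.exp (Eb G k) := by gcongr
      _ = _ := by ring

/-! ## Lower bounds -/

/-- A lower bound for the factors. -/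
theorem factor_lower {E η : ℝ} (hE : 0 ≤ E) (hη : 0 < η) {n : ℕ} {w : ℂ} (h1 : n * ‖w‖ ≤ E)
    (h2 : η / 2 ≤ ‖1 + w‖) :
    min (Real.exp (-2 * E)) ((min 1 (η / 2)) ^ ⌈2 * E⌉₊) ≤ ‖1 + w‖ ^ (n - 1) := by
  rcases le_or_gt (2 * E) n with hn | hn
  · refine (min_le_left _ _).trans ?_
    rcases Nat.eq_zero_or_pos n with rfl | hn0
    · simp only [Nat.zero_sub, pow_zero]
      rw [Real.exp_le_one_iff]
      linarith
    have hn1 : (0 : ℝ) < n := by exact_mod_cast hn0
    have hw : ‖w‖ ≤ 1 / 2 := by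
      have h3 : n * ‖w‖ ≤ n * (1 / 2) := by linarith
      exact le_of_mul_le_mul_left h3 hn1
    have hw0 : 0 ≤ ‖w‖ := norm_nonneg _
    have h3 : Real.exp (-2 * ‖w‖) ≤ ‖1 + w‖ := by
      have h4 : Real.exp (-2 * ‖w‖) ≤ 1 - ‖w‖ := by
        have h5 : Real.exp (2 * ‖w‖) * (1 - ‖w‖) ≥ 1 := by
          have h6 := Real.quadratic_le_exp_of_nonneg (x := 2 * ‖w‖) (by positivity)
          have h7 : 0 ≤ 1 - ‖w‖ := by linarith
          nlinarith
        have h8 : Real.exp (-2 * ‖w‖) * Real.exp (2 * ‖w‖) = 1 := by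
          rw [← Real.exp_add]; simp
        have h9 := Real.exp_pos (2 * ‖w‖)
        have h10 := Real.exp_pos (-2 * ‖w‖)
        nlinarith
      have h5 : 1 - ‖w‖ ≤ ‖1 + w‖ := by
        have := norm_sub_norm_le (1 : ℂ) (-w)
        rw [norm_one, norm_neg, sub_neg_eq_add] at this
        exact this
      linarith
    calc Real.exp (-2 * E) ≤ Real.exp (((n - 1 : ℕ) : ℝ) * (-2 * ‖w‖)) := by
          apply Real.exp_le_exp.mpr
          have h4 : ((n - 1 : ℕ) : ℝ) ≤ n := by exact_mod_cast Nat.sub_le n 1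
          nlinarith
      _ = Real.exp (-2 * ‖w‖) ^ (n - 1) := by rw [← Real.exp_nat_mul]
      _ ≤ ‖1 + w‖ ^ (n - 1) := by gcongr
  · refine (min_le_right _ _).trans ?_
    have hm0 : 0 ≤ min 1 (η / 2) := by positivity
    have hm1 : min 1 (η / 2) ≤ 1 := min_le_left _ _
    have h3 : n - 1 ≤ ⌈2 * E⌉₊ := by
      have h4 : n ≤ ⌈2 * E⌉₊ := by
        have h5 : (n : ℝ) ≤ (⌈2 * E⌉₊ : ℝ) := hn.le.trans (Nat.le_ceil _)
        exact_mod_cast h5
      omega
    calc (min 1 (η / 2)) ^ ⌈2 * E⌉₊ ≤ (min 1 (η / 2)) ^ (n - 1) :=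
          pow_le_pow_of_le_one hm0 hm1 h3
      _ ≤ ‖1 + w‖ ^ (n - 1) := by
          gcongr
          exact (min_le_right _ _).trans h2

theorem norm_P_succ_rho (s : NH n c) (i : ℕ) :
    ‖P n c c (i + 1)‖ = rho n c i * ‖orb n c c i‖ ^ n := by
  have := s.z0 i
  rw [norm_P_succ, pow_split s.hn]
  unfold rho
  field_simp

/-- The first small derivative is not too small. -/
theorem First.small_lower {k j : ℕ} {L M η : ℝ} (F : First n c k j L M η) :
    (min 1 (η / (32 * (k + 1)))) ^ k * η / (40 * (k + 1)) ≤ ‖P n c c j‖ := by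
  have s := F.s
  have hn0 := s.n0
  have hM1 := F.M1
  have hη0 := F.η0
  have hj1 := F.hj
  have hjk := F.hjk
  set τ : ℝ := min 1 (η / (32 * (k + 1))) with hτ
  have hτ0 : 0 < τ := by
    rw [hτ]
    positivity
  have h1 := norm_P_succ_rho s (j - 1)
  rw [Nat.sub_add_cancel hj1] at h1
  have h2 := s.crit (j - 1)
  rw [Nat.sub_add_cancel hj1] at h2
  have h3 := F.prev
  rw [← hτ] at h3
  have hz := s.z0 (j - 1)
  have hz2 := s.b2 (j - 1)
  have h4 : ∑ m ∈ range j, rho n c m ≤ (k + 1) * (n * M / η) := by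
    calc ∑ m ∈ range j, rho n c m ≤ ∑ m ∈ range j, n * M / η := by
          apply sum_le_sum
          intro m hm
          rw [Finset.mem_range] at hm
          unfold rho
          have e1 := F.le m hm
          have e2 := F.hη m (by omega)
          gcongr
      _ = j * (n * M / η) := by rw [sum_const, Finset.card_range, nsmul_eq_mul]
      _ ≤ (k + 1) * (n * M / η) := by
          have : (j : ℝ) ≤ k := by exact_mod_cast hjk
          gcongr
          linarith
  have h5 : n * (τ ^ k * M) / 2 ≤ rho n c (j - 1) := by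
    unfold rho
    gcongr
  set X : ℝ := ‖orb n c c (j - 1)‖ ^ n with hX
  have hX0 : 0 < X := by positivity
  have h6 : 1 / 20 ≤ X * ((k + 1) * (n * M / η)) := h2.trans (by gcongr)
  rw [h1]
  have h7 : n * (τ ^ k * M) / 2 * X ≤ rho n c (j - 1) * X := by gcongr
  refine le_trans ?_ h7
  have h8 : η / (20 * (k + 1)) ≤ X * (n * M) := by
    rw [div_le_iff₀ (by positivity)]
    have e : X * ((k + 1) * (n * M / η)) = X * (n * M) * (k + 1) / η := by ring
    rw [e, le_div_iff₀ hη0] at h6
    linarith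
  calc τ ^ k * η / (40 * (k + 1)) = τ ^ k / 2 * (η / (20 * (k + 1))) := by
        field_simp
        norm_num
    _ ≤ τ ^ k / 2 * (X * (n * M)) := by gcongr
    _ = n * (τ ^ k * M) / 2 * X := by ring

/-- Lower bounds for the derivatives. -/
theorem P_lower (k T : ℕ) {L η : ℝ} (hη0 : 0 < η) (hL : 2 ≤ L) : ∃ b : ℝ, 0 < b ∧ b ≤ 1 ∧
    ∀ (n : ℕ) (c : ℂ) (j : ℕ) (M : ℝ), First n c k j L M η → ∀ t ≤ T, t ≤ k →
      b ≤ ‖P n c c t‖ := by
  obtain ⟨B, hB1, hB⟩ := growth_bound k k hη0 hL
  set G : ℝ := Gc k L η B with hG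
  have hG0 : 0 ≤ G := Gc_nonneg k hη0 hL hB1
  set E : ℝ := Eb G k with hE
  have hE0 : 0 ≤ E := Eb_mono G hG0 (Nat.zero_le k)
  set lw : ℝ := min (Real.exp (-2 * E)) ((min 1 (η / 2)) ^ ⌈2 * E⌉₊) with hlw
  have hlw0 : 0 < lw := by
    rw [hlw]
    positivity
  have hlw1 : lw ≤ 1 := by
    refine (min_le_left _ _).trans ?_
    rw [Real.exp_le_one_iff]
    linarith
  set s0 : ℝ := (min 1 (η / (32 * (k + 1)))) ^ k * η / (40 * (k + 1)) with hs0
  have hs00 : 0 < s0 := by
    rw [hs0]
    positivity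
  induction T with
  | zero =>
    refine ⟨1, one_pos, le_rfl, ?_⟩
    intro n c j M F t ht _
    have : t = 0 := by omega
    rw [this, P_zero, norm_one]
  | succ T ih =>
    obtain ⟨b, hb0, hb1, hb⟩ := ih
    refine ⟨min b (s0 * b * lw ^ k), by positivity, (min_le_left _ _).trans hb1, ?_⟩
    intro n c j M F t ht htk
    have s := F.s
    have hn0 := s.n0
    rcases Nat.lt_or_ge t (T + 1) with hlt | hge
    · exact (min_le_left _ _).trans (hb n c j M F t (by omega) htk)
    have htT : t = T + 1 := by omega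
    rcases Nat.lt_or_ge t j with hlt | hge'
    · refine (min_le_left _ _).trans (hb1.trans ?_)
      have := F.big t (by omega) hlt
      linarith
    -- `t = j + m`
    obtain ⟨m, rfl⟩ : ∃ m, t = j + m := ⟨t - j, by omega⟩
    have hj1 := F.hj
    refine (min_le_right _ _).trans ?_
    have h1 := F.small_lower
    rw [← hs0] at h1
    have h2 := hb n c j M F m (by omega) (by omega)
    have h3 : ∀ i < m, n * ‖W n c j i‖ ≤ E := by
      intro i hi
      have h4 : n * ‖W n c j i‖ ≤ ∑ i ∈ range m, n * ‖W n c j i‖ :=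
        single_le_sum (f := fun i => n * ‖W n c j i‖) (fun i _ => by positivity)
          (Finset.mem_range.mpr hi)
      exact h4.trans ((F.W_bound hB1 htk fun t ht' => hB n c j M F t (by omega) (by omega)).trans
        (Eb_mono G hG0 (by omega)))
    have h4 : ∀ i < m, lw ≤ ‖1 + W n c j i‖ ^ (n - 1) := by
      intro i hi
      refine factor_lower hE0 hη0 (h3 i hi) ?_
      have h5 := F.hη (j + i) (by omega)
      rw [orb_shift (s.z i), norm_mul] at h5
      have h6 := s.b2 i
      have h7 : ‖orb n c c i‖ * ‖1 + W n c j i‖ ≤ 2 * ‖1 + W n c j i‖ := by gcongr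
      linarith
    have h5 : lw ^ k ≤ ∏ i ∈ range m, ‖1 + W n c j i‖ ^ (n - 1) := by
      calc lw ^ k ≤ lw ^ m := pow_le_pow_of_le_one hlw0.le hlw1 (by omega)
        _ = ∏ i ∈ range m, lw := by rw [prod_const, Finset.card_range]
        _ ≤ _ := prod_le_prod (fun _ _ => hlw0.le) fun i hi => h4 i (Finset.mem_range.mp hi)
    rw [s.P_shift, norm_mul, norm_mul, norm_prod]
    simp only [norm_pow]
    calc s0 * b * lw ^ k = s0 * (b * lw ^ k) := by ring
      _ ≤ ‖P n c c j‖ * (‖P n c c m‖ * ∏ i ∈ range m, ‖1 + W n c j i‖ ^ (n - 1)) := by gcongr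

/-- Either all the derivatives are large, or there is a first small one. -/
theorem NH.cases (s : NH n c) (k : ℕ) {L η : ℝ} (hL : 2 ≤ L) (hη0 : 0 < η)
    (hη : ∀ l < k, η ≤ ‖orb n c c l‖) :
    (∀ i, 1 ≤ i → i ≤ k → L ≤ ‖P n c c i‖) ∨ ∃ j M, First n c k j L M η := by
  by_cases hall : ∀ i, 1 ≤ i → i ≤ k → L ≤ ‖P n c c i‖
  · exact Or.inl hall
  right
  push Not at hall
  classical
  obtain ⟨j, ⟨hj1, hjk, hjL⟩, hjmin⟩ : ∃ j, (1 ≤ j ∧ j ≤ k ∧ ‖P n c c j‖ < L) ∧
      ∀ j' < j, ¬ (1 ≤ j' ∧ j' ≤ k ∧ ‖P n c c j'‖ < L) :=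
    ⟨Nat.find hall, Nat.find_spec hall, fun j' hj' => Nat.find_min hall hj'⟩
  have hbig : ∀ i, 1 ≤ i → i < j → L ≤ ‖P n c c i‖ := by
    intro i hi1 hij
    by_contra hcon
    push Not at hcon
    exact hjmin i hij ⟨hi1, by omega, hcon⟩
  obtain ⟨i0, hi0, hmax⟩ := exists_max_image (range j) (fun i => ‖P n c c i‖) ⟨0, by simp; omega⟩
  rw [Finset.mem_range] at hi0
  set M : ℝ := ‖P n c c i0‖ with hM
  have hM1 : 1 ≤ M := by
    have := hmax 0 (Finset.mem_range.mpr (by omega))
    simpa using this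
  exact ⟨j, M, s, hj1, hjk, hL, hbig, hjL, hM1, fun i hi => hmax i (Finset.mem_range.mpr hi),
    ⟨i0, hi0, rfl⟩, hη0, hη⟩

/-- The sums of the inverse derivatives, before the first small one. -/
theorem S_half {k : ℕ} {L : ℝ} (hL : L = 2 * k + 2) {k' : ℕ} (hk' : k' ≤ k)
    (h : ∀ i, 1 ≤ i → i ≤ k' → L ≤ ‖P n c c i‖) : ‖S n c c (k' + 1) - 1‖ ≤ 1 / 2 := by
  have hk0 : (0 : ℝ) ≤ k := Nat.cast_nonneg k
  refine (S_sub_one n c k').trans ?_
  calc ∑ i ∈ range k', 1 / ‖P n c c (i + 1)‖ ≤ ∑ i ∈ range k', 1 / L := by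
        apply sum_le_sum
        intro i hi
        rw [Finset.mem_range] at hi
        have := h (i + 1) (by omega) (by omega)
        apply one_div_le_one_div_of_le (by linarith) this
    _ = k' / L := by rw [sum_const, Finset.card_range, nsmul_eq_mul]; ring
    _ ≤ 1 / 2 := by
        rw [div_le_iff₀ (by linarith)]
        have : (k' : ℝ) ≤ k := by exact_mod_cast hk'
        rw [hL]
        linarith

/-- At a fixed order the two growth rates are comparable, uniformly. -/
theorem comparable (k : ℕ) : ∃ A : ℝ, 1 ≤ A ∧ ∀ (n : ℕ) (c : ℂ), NH n c → ∀ j ≤ k, Hyps n c A j := by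
  obtain ⟨η, hη0, hη⟩ := orb_lower (k + 1)
  have hk0 : (0 : ℝ) ≤ k := Nat.cast_nonneg k
  set L : ℝ := 2 * k + 2 with hLdef
  have hL : 2 ≤ L := by rw [hLdef]; linarith
  obtain ⟨B, hB1, hB⟩ := growth_bound k k hη0 hL
  obtain ⟨b, hb0, hb1, hb⟩ := P_lower k k hη0 hL
  set A : ℝ := (k + 1) ^ 2 / b + 4 * (k + 1) * (B / η + 1) with hA
  have hA1 : (k + 1) ^ 2 / b ≤ A := by
    rw [hA]
    have : 0 ≤ 4 * ((k : ℝ) + 1) * (B / η + 1) := by positivity
    linarith
  have hA2 : 4 * (k + 1) * (B / η + 1) ≤ A := by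
    rw [hA]
    have : 0 ≤ ((k : ℝ) + 1) ^ 2 / b := by positivity
    linarith
  have hA0 : 1 ≤ A := by
    refine le_trans ?_ hA2
    have : 0 ≤ B / η := by positivity
    nlinarith
  refine ⟨A, hA0, ?_⟩
  intro n c s j' hj'
  have hn0 := s.n0
  have hP : ∀ t ≤ k, b ≤ ‖P n c c t‖ := by
    intro t ht
    rcases s.cases k hL hη0 (fun l hl => hη n c s l (by omega)) with h | ⟨j, M, F⟩
    · rcases Nat.eq_zero_or_pos t with rfl | h0
      · rw [P_zero, norm_one]; exact hb1
      · have := h t h0 ht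
        linarith
    · exact hb n c j M F t ht ht
  have hjk1 : (j' : ℝ) + 1 ≤ k + 1 := by
    have : (j' : ℝ) ≤ k := by exact_mod_cast hj'
    linarith
  obtain ⟨i, hi, hsum⟩ := sum_le_card n c j'
  have hρi := s.rho i
  have hsum' : ∑ m ∈ range (j' + 1), rho n c m ≤ (k + 1) * rho n c i := hsum.trans (by gcongr)
  have hups : ∀ m, ups n c m = rho n c m * ‖S n c c (m + 1)‖ := by
    intro m
    unfold ups rho
    rw [D_eq s.hn s.z, norm_mul]
    ring
  refine ⟨⟨i, hi, ?_⟩, ?_⟩
  · -- the upper bound for the parameter derivatives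
    have h1 : ∀ m ≤ k, ‖S n c c (m + 1)‖ ≤ (k + 1) / b := by
      intro m hm
      unfold S
      refine (norm_sum_le _ _).trans ?_
      calc ∑ i ∈ range (m + 1), ‖(P n c c i)⁻¹‖ ≤ ∑ i ∈ range (m + 1), 1 / b := by
            apply sum_le_sum
            intro i hi
            rw [Finset.mem_range] at hi
            rw [norm_inv, ← one_div]
            apply one_div_le_one_div_of_le hb0
            exact hP i (by omega)
        _ = ((m : ℝ) + 1) * (1 / b) := by
            rw [sum_const, Finset.card_range, nsmul_eq_mul]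
            push_cast
            ring
        _ ≤ ((k : ℝ) + 1) * (1 / b) := by
            have : (m : ℝ) ≤ k := by exact_mod_cast hm
            gcongr
        _ = _ := by ring
    calc ∑ m ∈ range (j' + 1), ups n c m ≤ ∑ m ∈ range (j' + 1), rho n c m * ((k + 1) / b) := by
          apply sum_le_sum
          intro m hm
          rw [Finset.mem_range] at hm
          rw [hups]
          exact mul_le_mul_of_nonneg_left (h1 m (by omega)) (s.rho m).le
      _ = (∑ m ∈ range (j' + 1), rho n c m) * ((k + 1) / b) := by rw [sum_mul]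
      _ ≤ ((k + 1) * rho n c i) * ((k + 1) / b) := by gcongr
      _ = (k + 1) ^ 2 / b * rho n c i := by ring
      _ ≤ A * rho n c i := by gcongr
  · -- the lower bound
    have hlow : ∀ m ≤ k, (∀ i, 1 ≤ i → i ≤ m → L ≤ ‖P n c c i‖) →
        rho n c m ≤ 2 * ups n c m := by
      intro m hm h
      have h1 := S_half hLdef hm h
      have h2 := norm_sub_norm_le (1 : ℂ) (1 - S n c c (m + 1))
      rw [norm_one, sub_sub_cancel, norm_sub_rev] at h2
      rw [hups]
      have h3 := (s.rho m).le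
      nlinarith
    have hbig : (∀ i, 1 ≤ i → i ≤ j' → L ≤ ‖P n c c i‖) →
        ∃ i ≤ j', ∑ m ∈ range (j' + 1), rho n c m ≤ A * ups n c i := by
      intro h
      refine ⟨i, hi, hsum'.trans ?_⟩
      have h1 := hlow i (by omega) fun l hl1 hl2 => h l hl1 (by omega)
      have h2 := ups_nonneg n c i
      have h3 : 2 * ((k : ℝ) + 1) ≤ A := by
        refine le_trans ?_ hA2
        have : 0 ≤ B / η := by positivity
        nlinarith
      calc (k + 1) * rho n c i ≤ (k + 1) * (2 * ups n c i) := by gcongr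
        _ = 2 * (k + 1) * ups n c i := by ring
        _ ≤ A * ups n c i := by gcongr
    rcases s.cases k hL hη0 (fun l hl => hη n c s l (by omega)) with h | ⟨j, M, F⟩
    · exact hbig fun i hi1 hi2 => h i hi1 (by omega)
    rcases Nat.lt_or_ge j' j with hlt | hge
    · exact hbig fun i hi1 hi2 => F.big i hi1 (by omega)
    obtain ⟨i0, hi0, hM⟩ := F.at'
    refine ⟨i0, by omega, ?_⟩
    have hik := F.hjk
    have hM1 := F.M1
    have hBM : 0 ≤ n * (B * M) := by positivity
    have h1 := hlow i0 (by omega) fun l hl1 hl2 => F.big l hl1 (by omega)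
    have h2 : ∑ m ∈ range (j' + 1), rho n c m ≤ (k + 1) * (n * (B * M) / η) := by
      calc ∑ m ∈ range (j' + 1), rho n c m ≤ ∑ m ∈ range (j' + 1), n * (B * M) / η := by
            apply sum_le_sum
            intro m hm
            rw [Finset.mem_range] at hm
            unfold rho
            have e1 := hB n c j M F m (by omega) (by omega)
            have e2 := hη n c s m (by omega)
            gcongr
        _ = ((j' : ℝ) + 1) * (n * (B * M) / η) := by
            rw [sum_const, Finset.card_range, nsmul_eq_mul]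
            push_cast
            ring
        _ ≤ _ := by
            have hM1 := F.M1
            gcongr
    have h3 : n * M ≤ 2 * rho n c i0 := by
      rw [← hM]
      unfold rho
      have e1 := s.z0 i0
      have e2 := s.b2 i0
      rw [← mul_div_assoc, le_div_iff₀ e1]
      have : 0 ≤ n * ‖P n c c i0‖ := by positivity
      nlinarith
    have h4 := ups_nonneg n c i0
    calc ∑ m ∈ range (j' + 1), rho n c m ≤ (k + 1) * (n * (B * M) / η) := h2
      _ = (k + 1) * (B / η) * (n * M) := by ring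
      _ ≤ (k + 1) * (B / η) * (2 * (2 * ups n c i0)) :=
          mul_le_mul_of_nonneg_left (by linarith) (by positivity)
      _ = 4 * (k + 1) * (B / η) * ups n c i0 := by ring
      _ ≤ 4 * (k + 1) * (B / η + 1) * ups n c i0 := by
          gcongr
          linarith
      _ ≤ A * ups n c i0 := by gcongr

end Pool.Agent.TH363.QI
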