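import Mathlib
import Pool.Prelude.Def_F_c31e40fa
import Pool.Agent.TH363.QI.Fix

/-!
# The bound at a fixed order, for all parameters
-/

set_option autoImplicit false
open Set Filter Topology Metric Finset

namespace Pool.Agent.TH363.QI

open Pool.Agent.W746.LD

/-- The bound at a fixed order. -/
theorem fixed_order (k : ℕ) : ∃ C : ℝ, 0 < C ∧ ∀ n : ℕ, 2 ≤ n →
    ∀ c ∈ N62a1eb23.multibrotSet n,
      ∃ c', (∃ m z, N62a1eb23.IsAttractingCycle (fun z => z ^ n + c') m z) ∧
        ∀ j ≤ k, n * (‖P n c c j‖ + ‖D n c j‖) * ‖c' - c‖ ≤ C := by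
  obtain ⟨C, hC, H⟩ := dist_le
  obtain ⟨A, hA, hcomp⟩ := comparable k
  have hlogA : 0 ≤ Real.log A := Real.log_nonneg hA
  refine ⟨(2 * A + 2) * (C * (1 + Real.log A)), by positivity, ?_⟩
  intro n hn c hcM
  by_cases hhyp : ∃ m z, N62a1eb23.IsAttractingCycle (fun z => z ^ n + c) m z
  · refine ⟨c, hhyp, ?_⟩
    intro j _
    rw [sub_self, norm_zero, mul_zero]
    positivity
  have s := NH.mk' hn hcM hhyp
  have hn0 := s.n0
  have hH := hcomp n c s
  obtain ⟨c', hc', -, h1⟩ := H n hn c hcM A hA k (fun _ => hH) 0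
    (Or.inl ⟨0, Nat.zero_le _, le_rfl⟩)
  refine ⟨c', hc', ?_⟩
  -- the rates
  have hu : ∀ j ≤ k, ups n c j * ‖c' - c‖ ≤ C * (1 + Real.log A) := by
    intro j hj
    have h2 := h1 j hj
    have h3 := s.z0 j
    have h4 : ups n c j * ‖c' - c‖ * ‖orb n c c j‖ ≤ C * (1 + Real.log A) * ‖orb n c c j‖ := by
      refine le_trans (le_of_eq ?_) h2
      unfold ups
      field_simp
    exact le_of_mul_le_mul_right h4 h3
  intro j hj
  obtain ⟨i, hi, h2⟩ := (hH j hj).lb
  have h3 : rho n c j ≤ A * ups n c i := by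
    refine le_trans ?_ h2
    exact single_le_sum (f := fun m => rho n c m) (fun m _ => (s.rho m).le)
      (Finset.mem_range.mpr (by omega))
  have h4 := s.z0 j
  have h5 := s.b2 j
  have h6 : n * ‖P n c c j‖ = rho n c j * ‖orb n c c j‖ := by
    unfold rho
    field_simp
  have h7 : n * ‖D n c j‖ = ups n c j * ‖orb n c c j‖ := by
    unfold ups
    field_simp
  have h8 := ups_nonneg n c i
  have h9 := ups_nonneg n c j
  have h10 : 0 ≤ ‖c' - c‖ := norm_nonneg _
  have e1 : n * ‖P n c c j‖ * ‖c' - c‖ ≤ 2 * A * (C * (1 + Real.log A)) := by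
    rw [h6]
    calc rho n c j * ‖orb n c c j‖ * ‖c' - c‖ ≤ (A * ups n c i) * 2 * ‖c' - c‖ := by
          have := (s.rho j).le
          gcongr
      _ = 2 * A * (ups n c i * ‖c' - c‖) := by ring
      _ ≤ 2 * A * (C * (1 + Real.log A)) := by
          have := hu i (by omega)
          gcongr
  have e2 : n * ‖D n c j‖ * ‖c' - c‖ ≤ 2 * (C * (1 + Real.log A)) := by
    rw [h7]
    calc ups n c j * ‖orb n c c j‖ * ‖c' - c‖ ≤ ups n c j * 2 * ‖c' - c‖ := by gcongr
      _ = 2 * (ups n c j * ‖c' - c‖) := by ring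
      _ ≤ _ := by
          have := hu j hj
          gcongr
  calc n * (‖P n c c j‖ + ‖D n c j‖) * ‖c' - c‖
      = n * ‖P n c c j‖ * ‖c' - c‖ + n * ‖D n c j‖ * ‖c' - c‖ := by ring
    _ ≤ 2 * A * (C * (1 + Real.log A)) + 2 * (C * (1 + Real.log A)) := by linarith
    _ = _ := by ring

end Pool.Agent.TH363.QI
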